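import Pool.Agent.Y687.K4.TypeT

/-!
The `L`-function of the quadratic twist of `X_0(14)` by a discriminant of any sign.
-/

set_option autoImplicit false
set_option linter.style.haveILetI false

open Complex Filter Topology Set UpperHalfPlane MatrixGroups CongruenceSubgroup ZMod

namespace Pool.Agent.Y687

open Pool.Agent.W97.MT
open Pool.Agent.H491R3.J (OS)

theorem good_iffD {D : ℤ} {p : ℕ} (hp : p.Prime) :
    ((p : ℤ) ∣ 2 * (4 * (5805 * D ^ 2) ^ 3 + 27 * (-285714 * D ^ 3) ^ 2)) ↔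
      p = 2 ∨ p = 3 ∨ p = 7 ∨ p ∣ D.natAbs := by
  rw [← good_iff hp]
  have e : (4 * (5805 * D ^ 2) ^ 3 + 27 * (-285714 * D ^ 3) ^ 2) =
      (4 * (5805 * (D.natAbs : ℤ) ^ 2) ^ 3 + 27 * (-285714 * (D.natAbs : ℤ) ^ 3) ^ 2) := by
    have h1 : (D.natAbs : ℤ) ^ 2 = D ^ 2 := Int.natAbs_sq D
    have h2 : ((D.natAbs : ℤ) ^ 3) ^ 2 = (D ^ 3) ^ 2 := by
      rw [← pow_mul, ← pow_mul, show 3 * 2 = 2 * 3 by norm_num, pow_mul, pow_mul, h1]
    rw [h1, mul_pow (-285714) ((D.natAbs : ℤ) ^ 3) 2, h2, mul_pow (-285714) (D ^ 3) 2]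
  rw [e]

theorem bf3_ne0 {x : ℤ} (hx : x = 0 ∨ x = 1 ∨ x = -1) : bf x 3 1 ≠ 0 := by
  rcases hx with rfl | hx
  · unfold bf; simp
  · exact bf3_ne hx

theorem bf3_ne0' {x : ℤ} (hx : x = 0 ∨ x = 1 ∨ x = -1) {s : ℂ} (hs : 1 < s.re) : bf x 3 s ≠ 0 := by
  rcases hx with rfl | hx
  · unfold bf; simp
  · exact bf3_ne' hx hs

/-- the `L`-function of the quadratic twist by `D` -/
theorem exists_fD (D : ℤ) (hsq : Squarefree D) (h1 : 1 < D.natAbs) (h4 : D % 4 = 1)
    (h14 : Nat.Coprime D.natAbs 14) :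
    ∃ (f : ℂ → ℂ) (g1 : ℂ), Differentiable ℂ f ∧
      (∀ s : ℂ, (3 : ℝ) / 2 < s.re →
        HasProd (fun p : {p : ℕ // p.Prime ∧
            ¬ ((p : ℤ) ∣ 2 * (4 * (5805 * D ^ 2) ^ 3 + 27 * (-285714 * D ^ 3) ^ 2))} =>
          fac (5805 * D ^ 2) (-285714 * D ^ 3) s p) (f s)) ∧
      (g1 ≠ 0 → f 1 ≠ 0) ∧
      ∃ τ : ℂ, τ * g1 = ∑ a ∈ rr D.natAbs, ((jacobiSym (a : ℤ) D.natAbs : ℤ) : ℂ) *
        II ((a : ℚ) / D.natAbs) := by
  classical
  obtain ⟨M, hM⟩ : ∃ M : ℕ, M = D.natAbs := ⟨_, rfl⟩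
  have hsqM : Squarefree M := by rw [hM]; exact Int.squarefree_natAbs.2 hsq
  have hodd : Odd M := by
    rw [hM]
    refine Nat.odd_iff.2 ?_
    omega
  simp only [← hM] at h1 h14 ⊢
  have hM0 : M ≠ 0 := by omega
  haveI : NeZero M := ⟨hM0⟩
  set d : OS := ⟨M, hodd, hsqM, h1⟩ with hd
  obtain ⟨g, hg1, hg2, hg3⟩ := exists_L (q := M) h14 (H491R3.J.chi d) (H491R3.J.chi_primitive d)
  have hchi : ∀ m : ℕ, H491R3.J.chi d (m : ZMod M) = ((jacobiSym (m : ℤ) M : ℤ) : ℂ) :=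
    H491R3.J.chi_natCast d
  have hpm : ∀ m : ℕ, Nat.Coprime m M → jacobiSym (m : ℤ) M = 1 ∨ jacobiSym (m : ℤ) M = -1 := by
    intro m hm
    refine jacobiSym.eq_one_or_neg_one ?_
    rw [Int.gcd_natCast_natCast]
    exact hm
  have hz : ∀ p : ℕ, p.Prime → p ∣ M → jacobiSym (p : ℤ) M = 0 := by
    intro p hpp hpM
    rw [jacobiSym.eq_zero_iff_not_coprime, Int.gcd_natCast_natCast]
    intro hg
    have := Nat.dvd_gcd (dvd_refl p) hpM
    rw [hg] at this
    exact hpp.one_lt.ne' (Nat.dvd_one.1 this)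
  have hc2 := hpm 2 (Nat.Coprime.coprime_dvd_right (by norm_num) h14).symm
  have hc7 := hpm 7 (Nat.Coprime.coprime_dvd_right (by norm_num) h14).symm
  have hc3 : jacobiSym ((3 : ℕ) : ℤ) M = 0 ∨ jacobiSym ((3 : ℕ) : ℤ) M = 1 ∨
      jacobiSym ((3 : ℕ) : ℤ) M = -1 := by
    by_cases h3 : 3 ∣ M
    · exact Or.inl (hz 3 Nat.prime_three h3)
    · exact Or.inr (hpm 3 ((Nat.Prime.coprime_iff_not_dvd Nat.prime_three).2 h3))
  set x2 := jacobiSym ((2 : ℕ) : ℤ) M with hx2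
  set x3 := jacobiSym ((3 : ℕ) : ℤ) M with hx3
  set x7 := jacobiSym ((7 : ℕ) : ℤ) M with hx7
  refine ⟨fun s => g s * (bf x2 2 s * (bf x3 3 s * bf x7 7 s)), g 1,
    hg1.mul ((bf_diff x2 (by norm_num)).mul ((bf_diff x3 (by norm_num)).mul
      (bf_diff x7 (by norm_num)))), ?_, ?_, ?_⟩
  · intro s hs
    have hs' : 3 / 2 < s.re := hs
    have e1 := hg2 s hs'
    -- the finite product
    set p2 : Nat.Primes := ⟨2, Nat.prime_two⟩ with hp2
    set p3 : Nat.Primes := ⟨3, Nat.prime_three⟩ with hp3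
    set p7 : Nat.Primes := ⟨7, by norm_num⟩ with hp7
    have n23 : p2 ≠ p3 := by rw [hp2, hp3]; intro h; have := congrArg Subtype.val h; simp at this
    have n27 : p2 ≠ p7 := by rw [hp2, hp7]; intro h; have := congrArg Subtype.val h; simp at this
    have n37 : p3 ≠ p7 := by rw [hp3, hp7]; intro h; have := congrArg Subtype.val h; simp at this
    set k : Nat.Primes → ℂ := fun p => if p ∈ ({p2, p3, p7} : Finset Nat.Primes) then
      bf (jacobiSym ((p : ℕ) : ℤ) M) p s else 1 with hk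
    have e2 : HasProd k (∏ p ∈ ({p2, p3, p7} : Finset Nat.Primes), k p) :=
      hasProd_prod_of_ne_finset_one (fun p hp => if_neg hp)
    have e3 : ∏ p ∈ ({p2, p3, p7} : Finset Nat.Primes), k p =
        bf x2 2 s * (bf x3 3 s * bf x7 7 s) := by
      rw [Finset.prod_insert (by simp [n23, n27]), Finset.prod_insert (by simp [n37]),
        Finset.prod_singleton]
      simp only [hk]
      rw [if_pos (by simp), if_pos (by simp), if_pos (by simp)]
    rw [e3] at e2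
    have e4 := e1.mul e2
    refine hasProd_transfer _ _ _ ?_
    refine (congrArg (fun g => HasProd g _) (funext fun p => ?_)).mp e4
    have hpp : (p : ℕ).Prime := p.2
    have hF : (1 - (ap E14 p : ℂ) * H491R3.J.chi d ((p : ℕ) : ZMod M) * ((p : ℕ) : ℂ) ^ (-s) +
          (if (p : ℕ) ∣ 14 then 0 else ((p : ℕ) : ℂ)) * (H491R3.J.chi d ((p : ℕ) : ZMod M)) ^ 2 *
            ((p : ℕ) : ℂ) ^ (-2 * s)) = bf (jacobiSym ((p : ℕ) : ℤ) M) p s := by
      unfold bf
      rw [hchi]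
    rw [hF]
    have hs1 : 1 < s.re := by linarith
    by_cases hin : p ∈ ({p2, p3, p7} : Finset Nat.Primes)
    · have hk1 : k p = bf (jacobiSym ((p : ℕ) : ℤ) M) p s := if_pos hin
      rw [hk1]
      simp only [Finset.mem_insert, Finset.mem_singleton] at hin
      have hbad : ((p : ℕ) : ℤ) ∣ 2 * (4 * (5805 * D ^ 2) ^ 3 + 27 * (-285714 * D ^ 3) ^ 2) := by
        rw [good_iffD hpp]
        rcases hin with rfl | rfl | rfl
        · exact Or.inl rfl
        · exact Or.inr (Or.inl rfl)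
        · exact Or.inr (Or.inr (Or.inl rfl))
      rw [if_neg (not_not.2 hbad)]
      refine inv_mul_cancel₀ ?_
      rcases hin with rfl | rfl | rfl
      · exact bf2_ne' hc2 hs1
      · exact bf3_ne0' hc3 hs1
      · exact bf7_ne' hc7 hs1
    · have hk1 : k p = 1 := if_neg hin
      rw [hk1, mul_one]
      simp only [Finset.mem_insert, Finset.mem_singleton, not_or] at hin
      have q2 : (p : ℕ) ≠ 2 := fun h => hin.1 (Subtype.ext h)
      have q3 : (p : ℕ) ≠ 3 := fun h => hin.2.1 (Subtype.ext h)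
      have q7 : (p : ℕ) ≠ 7 := fun h => hin.2.2 (Subtype.ext h)
      by_cases hpM : (p : ℕ) ∣ M
      · have hbad : ((p : ℕ) : ℤ) ∣ 2 * (4 * (5805 * D ^ 2) ^ 3 + 27 * (-285714 * D ^ 3) ^ 2) := by
          rw [good_iffD hpp, ← hM]
          exact Or.inr (Or.inr (Or.inr hpM))
        rw [if_neg (not_not.2 hbad), hz p hpp hpM]
        unfold bf
        simp
      · have hgood : ¬ ((p : ℕ) : ℤ) ∣ 2 * (4 * (5805 * D ^ 2) ^ 3 +
            27 * (-285714 * D ^ 3) ^ 2) := by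
          rw [good_iffD hpp, ← hM]
          push Not
          exact ⟨q2, q3, q7, hpM⟩
        rw [if_pos hgood]
        haveI : Fact (p : ℕ).Prime := ⟨hpp⟩
        have hx := hpm p ((Nat.Prime.coprime_iff_not_dvd hpp).2 hpM)
        have hx2 : ((jacobiSym ((p : ℕ) : ℤ) M : ℤ) : ℂ) ^ 2 = 1 := by
          rcases hx with h | h <;> rw [h] <;> norm_num
        have h14' : ¬ (p : ℕ) ∣ 14 := by
          intro h
          have h1 : (p : ℕ) ∣ 2 * 7 := by simpa using h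
          rcases (Nat.Prime.dvd_mul hpp).1 h1 with h2 | h2
          · exact q2 ((Nat.prime_dvd_prime_iff_eq hpp Nat.prime_two).1 h2)
          · exact q7 ((Nat.prime_dvd_prime_iff_eq hpp (by norm_num)).1 h2)
        unfold bf fac
        congr 1
        rw [hx2, if_neg h14', mul_one, p_cpow hpp.ne_zero]
        have h5 := cnt_twistD 5805 (-285714) h4 p q2 (by rw [← hM]; exact hpM)
        rw [cnt_E14 p hpp q2 q3, ← hM] at h5
        have h6 : (((p : ℕ) : ℤ) - (Nat.card {q : ZMod p × ZMod p //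
                  q.2 ^ 2 = q.1 ^ 3 + ((5805 * D ^ 2 : ℤ) : ZMod p) * q.1 +
                    ((-285714 * D ^ 3 : ℤ) : ZMod p)} : ℤ)) =
                jacobiSym ((p : ℕ) : ℤ) M * ap E14 p := h5
        rw [h6]
        push_cast
        ring
  · intro hg
    exact mul_ne_zero hg (mul_ne_zero (bf2_ne hc2) (mul_ne_zero (bf3_ne0 hc3) (bf7_ne hc7)))
  · refine ⟨gaussSum (H491R3.J.chi d)⁻¹ (stdAddChar (N := M)), ?_⟩
    have hinv : (H491R3.J.chi d)⁻¹ = H491R3.J.chi d := H491R3.J.chi_inv d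
    rw [hg3, hinv, sum_rrC]
    refine Finset.sum_congr rfl fun u _ => ?_
    rw [← hchi, ZMod.natCast_zmod_val]

/-- the central value does not vanish if the sum of the symbols does not -/
theorem exists_f_neD (D : ℤ) (hsq : Squarefree D) (h1 : 1 < D.natAbs) (h4 : D % 4 = 1)
    (h14 : Nat.Coprime D.natAbs 14) {t sp sm : ℚ → ℤ} {Op Om : ℝ} (hOp : 0 < Op) (hOm : 0 < Om)
    (ht : ∀ r, t r = sp r + sm r)
    (hs : ∀ r : ℚ, (3 : ℂ) * II r = sp r * Op + sm r * Om * Complex.I)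
    (hne : SS t D.natAbs D.natAbs ≠ 0) :
    ∃ f : ℂ → ℂ, Differentiable ℂ f ∧
      (∀ s : ℂ, (3 : ℝ) / 2 < s.re →
        HasProd (fun p : {p : ℕ // p.Prime ∧
            ¬ ((p : ℤ) ∣ 2 * (4 * (5805 * D ^ 2) ^ 3 + 27 * (-285714 * D ^ 3) ^ 2))} =>
          fac (5805 * D ^ 2) (-285714 * D ^ 3) s p) (f s)) ∧ f 1 ≠ 0 := by
  obtain ⟨f, g1, hf1, hf2, hf3, τ, hτ⟩ := exists_fD D hsq h1 h4 h14
  refine ⟨f, hf1, hf2, hf3 ?_⟩
  rintro rfl
  apply hne
  rw [mul_zero] at hτ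
  set M := D.natAbs with hM
  have h2 : ((SS sp M M : ℤ) : ℂ) * Op + ((SS sm M M : ℤ) : ℂ) * Om * Complex.I = 0 := by
    have h3 : (3 : ℂ) * ∑ a ∈ rr M, ((jacobiSym (a : ℤ) M : ℤ) : ℂ) * II ((a : ℚ) / M) =
        ((SS sp M M : ℤ) : ℂ) * Op + ((SS sm M M : ℤ) : ℂ) * Om * Complex.I := by
      unfold SS
      push_cast
      rw [Finset.mul_sum, Finset.sum_mul, Finset.sum_mul, Finset.sum_mul,
        ← Finset.sum_add_distrib]
      refine Finset.sum_congr rfl fun a _ => ?_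
      have := hs ((a : ℚ) / M)
      linear_combination ((jacobiSym (a : ℤ) M : ℤ) : ℂ) * this
    rw [← h3, ← hτ, mul_zero]
  have h3 := congrArg Complex.re h2
  have h4' := congrArg Complex.im h2
  simp at h3 h4'
  have h5 : SS sp M M = 0 := by
    rcases h3 with h3 | h3
    · exact_mod_cast h3
    · exact absurd h3 hOp.ne'
  have h6 : SS sm M M = 0 := by
    rcases h4' with h4' | h4'
    · exact_mod_cast h4'
    · exact absurd h4' hOm.ne'
  have h7 : SS t M M = SS sp M M + SS sm M M := by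
    unfold SS
    rw [← Finset.sum_add_distrib]
    refine Finset.sum_congr rfl fun a _ => ?_
    rw [ht]; ring
  rw [h7, h5, h6, add_zero]

end Pool.Agent.Y687
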