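import Pool.Agent.Y687.K4.DescT
import Pool.Agent.Y687.K4.LfinT
import Pool.Agent.Y687.Main

/-!
Weak BSD for the twists of `X_0(14)` by discriminants of any sign with at most one split prime.
-/

set_option autoImplicit false
set_option linter.style.haveILetI false

open Finset

namespace Pool.Agent.Y687

open Pool.Agent.W97.MT (ap E14)

/-- the prime discriminant attached to an odd prime -/
def qs (q : ℕ) : ℤ := if q % 4 = 1 then q else -q

/-- the product of the prime discriminants -/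
def DD (S : Finset ℕ) : ℤ := ∏ q ∈ S, qs q

theorem qs_natAbs (q : ℕ) : (qs q).natAbs = q := by
  unfold qs
  split_ifs <;> simp

theorem qs_mod {q : ℕ} (h : q % 2 = 1) : qs q % 4 = 1 := by
  unfold qs
  split_ifs <;> omega

theorem DD_natAbs (S : Finset ℕ) : (DD S).natAbs = ∏ q ∈ S, q := by
  classical
  unfold DD
  induction S using Finset.induction_on with
  | empty => simp
  | insert q T hq ih =>
    rw [Finset.prod_insert hq, Finset.prod_insert hq, Int.natAbs_mul, ih, qs_natAbs]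

theorem DD_mod {S : Finset ℕ} (hS : ∀ q ∈ S, q % 2 = 1) : DD S % 4 = 1 := by
  classical
  unfold DD
  induction S using Finset.induction_on with
  | empty => simp
  | insert q T hq ih =>
    rw [Finset.prod_insert hq, Int.mul_emod, qs_mod (hS q (Finset.mem_insert_self _ _)),
      ih fun q hq => hS q (Finset.mem_insert_of_mem hq)]
    norm_num

theorem InertT.odd {q : ℕ} (h : InertT q) : q % 2 = 1 := by
  have := h.2.1
  omega

theorem DD_sqf {S : Finset ℕ} (hS : ∀ q ∈ S, InertT q) : Squarefree (DD S) := by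
  rw [← Int.squarefree_natAbs, DD_natAbs]
  exact squarefree_prod fun q hq => (hS q hq).1

theorem mem_of_dvd {S : Finset ℕ} (hS : ∀ q ∈ S, q.Prime) {q : ℕ} (hq : q.Prime)
    (h : (q : ℤ) ∣ DD S) : q ∈ S := by
  have h1 : q ∣ (DD S).natAbs := Int.natCast_dvd.1 h
  rw [DD_natAbs] at h1
  exact dvd_prod_primes hS hq h1

theorem inertT_two {S : Finset ℕ} (hS : ∀ q ∈ S, InertT q) (q : ℕ) (hq : q.Prime)
    (h : (q : ℤ) ∣ DD S) : q ≠ 2 ∧ q ≠ 7 ∧ ¬ IsSquare (-7 : ZMod q) ∧ ¬ IsSquare (2 : ZMod q) := by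
  have h1 := hS q (mem_of_dvd (fun q hq => (hS q hq).1) hq h)
  have h2 := h1.2.1
  have h3 := h1.2.2
  exact ⟨by omega, by omega, h1.nsq7, h1.nsq2⟩

theorem splitT_notMem {p : ℕ} {S : Finset ℕ} (hp : Split p) (hS : ∀ q ∈ S, InertT q) : p ∉ S := by
  intro h
  have h1 := (hS p h).2.1
  have h2 := hp.2.1
  omega

/-- descent hypotheses -/
theorem hypD_of {p : ℕ} {S : Finset ℕ} (hp : Split p) (hS : ∀ q ∈ S, InertT q)
    (hN : ¬ 8 ∣ cnt (5805 * DD S ^ 2) (-285714 * DD S ^ 3) p + 1) :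
    HypD (DD S) p ∧ ¬ (8 : ℤ) ∣ ap E14 p - 2 * jacobiSym p (∏ q ∈ S, q) := by
  have hSp : ∀ q ∈ S, q.Prime := fun q hq => (hS q hq).1
  have hpS := splitT_notMem hp hS
  obtain ⟨pp, p8, p7⟩ := hp
  haveI : Fact p.Prime := ⟨pp⟩
  have hm4 := DD_mod fun q hq => (hS q hq).odd
  have hpm : ¬ p ∣ (DD S).natAbs := by
    rw [DD_natAbs]
    exact fun h => hpS (dvd_prod_primes hSp pp h)
  obtain ⟨k1, k2⟩ := hyp_factsD p pp p8 p7 (DD S) hm4 hpm hN
  rw [DD_natAbs] at k1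
  refine ⟨⟨hm4, pp, p8, ?_, inertT_two hS, by omega, ?_, k2⟩, k1⟩
  · rw [← Int.squarefree_natAbs, Int.natAbs_mul, Int.natAbs_natCast, DD_natAbs,
      Nat.squarefree_mul_iff]
    rw [DD_natAbs] at hpm
    exact ⟨(Nat.Prime.coprime_iff_not_dvd pp).2 hpm, pp.squarefree, squarefree_prod hSp⟩
  · exact (sq_seven p (by omega) (by omega)).2 p7

/-- the statement on the `L`-function and the rational points -/
def WB (D : ℤ) : Prop :=
  (∃ f : ℂ → ℂ, Differentiable ℂ f ∧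
      (∀ s : ℂ, (3 : ℝ) / 2 < s.re →
        HasProd (fun l : {l : ℕ // l.Prime ∧
            ¬ ((l : ℤ) ∣ 2 * (4 * (5805 * D ^ 2) ^ 3 + 27 * (-285714 * D ^ 3) ^ 2))} =>
          fac (5805 * D ^ 2) (-285714 * D ^ 3) s l)
          (f s)) ∧ f 1 ≠ 0) ∧
    {q : ℚ × ℚ | q.2 ^ 2 = q.1 ^ 3 + ((5805 * D ^ 2 : ℤ) : ℚ) * q.1 +
      ((-285714 * D ^ 3 : ℤ) : ℚ)}.Finite

theorem cop14_DD {S : Finset ℕ} (hS : ∀ q ∈ S, InertT q) : Nat.Coprime (∏ q ∈ S, q) 14 :=
  cop14_prod fun q hq => ⟨(hS q hq).1, not_dvd14T (hS q hq).1 (hS q hq).facts.2.1⟩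

/-- the main theorem -/
theorem mainT {p : ℕ} {S : Finset ℕ} (hp : Split p) (hS : ∀ q ∈ S, InertT q)
    (hN : ¬ 8 ∣ cnt (5805 * DD S ^ 2) (-285714 * DD S ^ 3) p + 1) : WB ((p : ℤ) * DD S) := by
  obtain ⟨H, h8⟩ := hypD_of hp hS hN
  have hpS := splitT_notMem hp hS
  refine ⟨?_, H.finite_set⟩
  obtain ⟨t, sp, sm, Op, Om, hOp, hOm, ht, htt, hs⟩ := exists_symbT
  obtain ⟨k1, k2⟩ := SS_facts p hp.1 hp.2.1 hp.2.2
  have h14 := Split.jac14 hp.1 hp.2.1 hp.2.2
  have hne := LT_ne_zero ht hp.1 hp.2.1 h14 k2 (fun q hq => (hS q hq).facts) hpS h8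
  have habs : ((p : ℤ) * DD S).natAbs = p * ∏ q ∈ S, q := by
    rw [Int.natAbs_mul, Int.natAbs_natCast, DD_natAbs]
  refine exists_f_neD ((p : ℤ) * DD S) H.sqf ?_ ?_ ?_ hOp hOm htt hs (by rw [habs]; exact hne)
  · rw [habs]
    have h1 := hp.1.one_lt
    have h2 : 0 < ∏ q ∈ S, q := Finset.prod_pos fun q hq => (hS q hq).1.pos
    nlinarith
  · have h1 := DD_mod fun q hq => (hS q hq).odd
    have h2 : (p : ℤ) % 4 = 1 := by have := hp.2.1; omega
    rw [Int.mul_emod, h1, h2]; norm_num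
  · rw [habs]
    refine Nat.Coprime.mul_left ((Nat.Prime.coprime_iff_not_dvd hp.1).2 ?_) (cop14_DD hS)
    exact not_dvd14T hp.1 h14

/-- twists by inert primes only -/
theorem mainI {S : Finset ℕ} (hS : ∀ q ∈ S, InertT q) (hne : S.Nonempty) : WB (DD S) := by
  have hSp : ∀ q ∈ S, q.Prime := fun q hq => (hS q hq).1
  have hm4 := DD_mod fun q hq => (hS q hq).odd
  have H : HypI (DD S) := ⟨hm4, DD_sqf hS, inertT_two hS⟩
  refine ⟨?_, H.finite_set⟩
  obtain ⟨t, sp, sm, Op, Om, hOp, hOm, ht, htt, hs⟩ := exists_symbT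
  obtain ⟨k, hk⟩ := L_inertT ht S fun q hq => (hS q hq).facts
  refine exists_f_neD (DD S) H.sqf ?_ hm4 ?_ hOp hOm htt hs ?_
  · rw [DD_natAbs]
    obtain ⟨q, hq⟩ := hne
    exact lt_of_lt_of_le (hSp q hq).one_lt
      (Nat.le_of_dvd (Finset.prod_pos fun q hq => (hSp q hq).pos) (dpm hq))
  · rw [DD_natAbs]
    exact cop14_DD hS
  · rw [DD_natAbs, hk]
    intro h0
    rcases mul_eq_zero.1 h0 with h4 | h4
    · exact absurd h4 (by positivity)
    · omega

/-- primes in a class modulo `56` with given residue symbol modulo `p` -/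
theorem infinite_res {p : ℕ} (hp : p.Prime) (hp56 : Nat.Coprime 56 p) {r : ℕ}
    (hr : Nat.Coprime r 56) {η : ℤ} (hη : η = 1 ∨ η = -1) :
    {q : ℕ | q.Prime ∧ q % 56 = r % 56 ∧ jacobiSym (q : ℤ) p = η}.Infinite := by
  have hp2 : p ≠ 2 := by
    rintro rfl
    norm_num at hp56
  obtain ⟨t, ht, hj⟩ : ∃ t : ℕ, Nat.Coprime t p ∧ jacobiSym (t : ℤ) p = η := by
    rcases hη with rfl | rfl
    · exact ⟨1, by simp, by simp⟩
    · exact exists_nonres' hp hp2
  obtain ⟨n, hn1, hn2⟩ := Nat.chineseRemainder hp56 r t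
  haveI : NeZero (56 * p) := ⟨Nat.mul_ne_zero (by norm_num) hp.ne_zero⟩
  have hunit : IsUnit ((n : ℕ) : ZMod (56 * p)) := by
    rw [ZMod.isUnit_iff_coprime]
    refine Nat.Coprime.mul_right ?_ ?_
    · rw [Nat.coprime_iff_gcd_eq_one, hn1.gcd_eq]
      exact hr
    · rw [Nat.coprime_iff_gcd_eq_one, hn2.gcd_eq]
      exact ht
  have hinf := Nat.infinite_setOfPred_prime_and_eq_mod hunit
  refine hinf.mono ?_
  rintro q ⟨hq, hqn⟩
  rw [ZMod.natCast_eq_natCast_iff] at hqn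
  have hq1 : q ≡ r [MOD 56] := (hqn.of_mul_right p).trans hn1
  have hq2 : q ≡ t [MOD p] := (hqn.of_mul_left 56).trans hn2
  refine ⟨hq, hq1, ?_⟩
  rw [← hj]
  refine jacobiSym.mod_left' ?_
  have h9 : q % p = t % p := hq2
  exact_mod_cast h9

/-- infinitely many inert primes in each class modulo `8` can be added -/
theorem infinite_qT {p : ℕ} {S : Finset ℕ} (hp : Split p) (hS : ∀ q ∈ S, InertT q) {e : ℕ}
    (he : e = 3 ∨ e = 5) :
    {q : ℕ | InertT q ∧ q % 8 = e ∧ q ∉ S ∧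
      ¬ 8 ∣ cnt (5805 * DD (insert q S) ^ 2) (-285714 * DD (insert q S) ^ 3) p + 1}.Infinite := by
  classical
  obtain ⟨pp, p8, p7⟩ := hp
  haveI : Fact p.Prime := ⟨pp⟩
  obtain ⟨-, k, hk⟩ := SS_facts p pp p8 p7
  have hSp : ∀ q ∈ S, q.Prime := fun q hq => (hS q hq).1
  have hpS : p ∉ S := splitT_notMem ⟨pp, p8, p7⟩ hS
  have hpm : ¬ p ∣ ∏ q ∈ S, q := fun h => hpS (dvd_prod_primes hSp pp h)
  have hjm : jacobiSym p (∏ q ∈ S, q) = 1 ∨ jacobiSym p (∏ q ∈ S, q) = -1 := by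
    refine jacobiSym.eq_one_or_neg_one ?_
    rw [Int.gcd_natCast_natCast]
    exact (Nat.Prime.coprime_iff_not_dvd pp).2 hpm
  obtain ⟨η, hη, hη2⟩ : ∃ η : ℤ, (η = 1 ∨ η = -1) ∧
      ¬ (8 : ℤ) ∣ 1 + p - (η * jacobiSym p (∏ q ∈ S, q)) * ap E14 p := by
    rcases Int.even_or_odd k with ⟨j, hj⟩ | ⟨j, hj⟩
    · refine ⟨-jacobiSym p (∏ q ∈ S, q), by rcases hjm with h | h <;> rw [h] <;> norm_num, ?_⟩
      rcases hjm with h | h <;> rw [h] <;> omega
    · refine ⟨jacobiSym p (∏ q ∈ S, q), hjm, ?_⟩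
      rcases hjm with h | h <;> rw [h] <;> omega
  have hp56 : Nat.Coprime 56 p := by
    rw [show (56 : ℕ) = 2 ^ 3 * 7 by norm_num]
    refine Nat.Coprime.mul_left (Nat.Coprime.pow_left 3
      ((Nat.coprime_primes Nat.prime_two pp).2 (by omega)))
      ((Nat.coprime_primes (by norm_num) pp).2 (by omega))
  obtain ⟨r, hr, hre, hr7⟩ : ∃ r : ℕ, Nat.Coprime r 56 ∧ r % 8 = e ∧ r % 7 = 3 := by
    rcases he with rfl | rfl
    · exact ⟨3, by norm_num, by norm_num, by norm_num⟩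
    · exact ⟨45, by norm_num, by norm_num, by norm_num⟩
  refine ((infinite_res pp hp56 hr hη).sdiff (S.finite_toSet)).mono ?_
  rintro q ⟨⟨hq, hq56, hqj⟩, hqS⟩
  have hqS' : q ∉ S := fun h => hqS (by simpa using h)
  have hI : InertT q := ⟨hq, by omega, by omega⟩
  have hqp : q ≠ p := by
    rintro rfl
    have := hI.2.1
    omega
  have hI' : ∀ r ∈ insert q S, InertT r := by
    intro r hr
    rcases Finset.mem_insert.1 hr with rfl | hr
    · exact hI
    · exact hS r hr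
  refine ⟨hI, by omega, hqS', ?_⟩
  have hm4' := DD_mod fun q hq => (hI' q hq).odd
  have hpm' : ¬ p ∣ (DD (insert q S)).natAbs := by
    rw [DD_natAbs]
    intro h
    exact splitT_notMem ⟨pp, p8, p7⟩ hI' (dvd_prod_primes (fun r hr => (hI' r hr).1) pp h)
  have hpq : jacobiSym p q = η := by
    rw [jacobiSym.quadratic_reciprocity_one_mod_four (by omega) (hq.odd_of_ne_two (by
      have := hI.2.1
      omega)), hqj]
  have hprod : jacobiSym p (∏ r ∈ insert q S, r) = η * jacobiSym p (∏ q ∈ S, q) := by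
    haveI : NeZero q := ⟨hq.ne_zero⟩
    haveI : NeZero (∏ q ∈ S, q) := ⟨Finset.prod_ne_zero_iff.2 fun r hr => (hSp r hr).ne_zero⟩
    rw [Finset.prod_insert hqS', jacobiSym.mul_right, hpq]
  have h1 := cnt_twistD 5805 (-285714) hm4' p (by omega) hpm'
  rw [cnt_E14 p pp (by omega) (by omega), DD_natAbs, hprod] at h1
  intro h8
  apply hη2
  rw [← h1]
  have h2 : ((8 : ℕ) : ℤ) ∣ ((cnt (5805 * DD (insert q S) ^ 2)
      (-285714 * DD (insert q S) ^ 3) p + 1 : ℕ) : ℤ) := Int.natCast_dvd_natCast.2 h8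
  push_cast at h2 ⊢
  have h3 : ∀ P C : ℤ, 1 + P - (P - C) = C + 1 := fun P C => by ring
  rw [h3]
  exact h2

end Pool.Agent.Y687
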