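import Pool.Agent.Y687.K4.SymT
import Pool.Agent.Y687.Comb4

/-!
Cardinality of the classes and congruences for the class sums.
-/

set_option autoImplicit false
set_option linter.style.haveILetI false

open Finset

namespace Pool.Agent.Y687

/-- a nonresidue -/
theorem exists_nonres' {p : ℕ} (hp : p.Prime) (h2 : p ≠ 2) :
    ∃ t : ℕ, Nat.Coprime t p ∧ jacobiSym (t : ℤ) p = -1 := by
  haveI : Fact p.Prime := ⟨hp⟩
  have hchar : ringChar (ZMod p) ≠ 2 := by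
    rw [ZMod.ringChar_zmod_n]; exact h2
  obtain ⟨a, ha⟩ := quadraticChar_exists_neg_one hchar
  have ht : jacobiSym ((a.val : ℕ) : ℤ) p = -1 := by
    rw [← jacobiSym.legendreSym.to_jacobiSym, legendreSym]
    simpa using ha
  refine ⟨a.val, ?_, ht⟩
  by_contra hne
  have h0 : jacobiSym ((a.val : ℕ) : ℤ) p = 0 := by
    haveI : NeZero p := ⟨hp.ne_zero⟩
    rw [jacobiSym.eq_zero_iff_not_coprime]
    intro hg
    rw [Int.gcd_natCast_natCast] at hg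
    exact hne hg
  rw [ht] at h0
  norm_num at h0

theorem jac_one_left (q : ℕ) : jacobiSym ((1 : ℕ) : ℤ) q = 1 := by simp

/-- a unit which is a nonresidue modulo one prime only -/
theorem exists_flip {P : Finset ℕ} (hP : ∀ q ∈ P, q.Prime ∧ q ≠ 2) {q0 : ℕ} (hq0 : q0 ∈ P)
    [NeZero (∏ q ∈ P, q)] :
    ∃ w : (ZMod (∏ q ∈ P, q))ˣ, chi q0 w = -1 ∧ ∀ q ∈ P, q ≠ q0 → chi q w = 1 := by
  classical
  obtain ⟨t, ht, hj⟩ := exists_nonres' (hP q0 hq0).1 (hP q0 hq0).2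
  have hsplit : ∏ q ∈ P, q = q0 * ∏ q ∈ P.erase q0, q := (Finset.mul_prod_erase P _ hq0).symm
  have hcop : Nat.Coprime q0 (∏ q ∈ P.erase q0, q) := by
    refine Nat.Coprime.prod_right fun q hq => ?_
    rw [Finset.mem_erase] at hq
    exact (Nat.coprime_primes (hP q0 hq0).1 (hP q hq.2).1).2 hq.1.symm
  obtain ⟨n, hn1, hn2⟩ := Nat.chineseRemainder hcop t 1
  have hnc : Nat.Coprime n (∏ q ∈ P, q) := by
    rw [hsplit]
    refine Nat.Coprime.mul_right ?_ ?_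
    · rw [Nat.coprime_iff_gcd_eq_one, hn1.gcd_eq]
      exact ht
    · rw [Nat.coprime_iff_gcd_eq_one, hn2.gcd_eq]
      simp
  refine ⟨ZMod.unitOfCoprime n hnc, ?_, ?_⟩
  · rw [chi_val (dpm hq0) _ (n : ℤ) (by rw [ZMod.coe_unitOfCoprime]; push_cast; rfl), ← hj]
    refine jacobiSym.mod_left' ?_
    have h1 : n % q0 = t % q0 := hn1
    exact_mod_cast h1
  · intro q hq hne
    rw [chi_val (dpm hq) _ (n : ℤ) (by rw [ZMod.coe_unitOfCoprime]; push_cast; rfl),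
      ← jac_one_left q]
    refine jacobiSym.mod_left' ?_
    have h2 : n ≡ 1 [MOD q] := hn2.of_dvd (Finset.dvd_prod_of_mem (fun q => q)
      (Finset.mem_erase.2 ⟨hne, hq⟩))
    have h1 : n % q = 1 % q := h2
    exact_mod_cast h1

theorem SS_one_zero {P T : Finset ℕ} (hP : ∀ q ∈ P, q.Prime ∧ q ≠ 2) (hT : T ⊆ P)
    (hne : T.Nonempty) : SS (fun _ => 1) (∏ q ∈ T, q) (∏ q ∈ P, q) = 0 := by
  classical
  have hM0 : (∏ q ∈ P, q) ≠ 0 := Finset.prod_ne_zero_iff.2 fun q hq => (hP q hq).1.ne_zero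
  haveI : NeZero (∏ q ∈ P, q) := ⟨hM0⟩
  obtain ⟨q0, hq0⟩ := hne
  obtain ⟨w, hw1, hw2⟩ := exists_flip hP (hT hq0)
  have h1 : SS (fun _ => 1) (∏ q ∈ T, q) (∏ q ∈ P, q) =
      ∑ u : (ZMod (∏ q ∈ P, q))ˣ, ∏ q ∈ T, chi q u := by
    unfold SS
    rw [sum_rr (fun a => jacobiSym (a : ℤ) (∏ q ∈ T, q) * 1)]
    refine Finset.sum_congr rfl fun u _ => ?_
    rw [mul_one, jac_prod _ T fun q hq => (hP q (hT hq)).1]
    rfl
  have h2 : ∀ u : (ZMod (∏ q ∈ P, q))ˣ, ∏ q ∈ T, chi q (w * u) = -∏ q ∈ T, chi q u := by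
    intro u
    have e1 : ∏ q ∈ T, chi q (w * u) = (∏ q ∈ T, chi q w) * ∏ q ∈ T, chi q u := by
      rw [← Finset.prod_mul_distrib]
      exact Finset.prod_congr rfl fun q hq => chi_mul (dpm (hT hq)) w u
    have e2 : ∏ q ∈ T, chi q w = -1 := by
      rw [← Finset.mul_prod_erase T _ hq0, hw1, Finset.prod_eq_one, mul_one]
      intro q hq
      rw [Finset.mem_erase] at hq
      exact hw2 q (hT hq.2) hq.1
    rw [e1, e2]
    ring
  have h3 : ∑ u : (ZMod (∏ q ∈ P, q))ˣ, ∏ q ∈ T, chi q u =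
      ∑ u : (ZMod (∏ q ∈ P, q))ˣ, ∏ q ∈ T, chi q (w * u) :=
    (Fintype.sum_equiv (Equiv.mulLeft w) _ _ fun u => rfl).symm
  simp_rw [h2] at h3
  rw [Finset.sum_neg_distrib] at h3
  rw [h1]
  linarith

theorem SS_one_card (P : Finset ℕ) (hP : ∀ q ∈ P, q.Prime) :
    SS (fun _ => 1) 1 (∏ q ∈ P, q) = ∏ q ∈ P, ((q : ℤ) - 1) := by
  classical
  have h1 : SS (fun _ => 1) 1 (∏ q ∈ P, q) = (Nat.totient (∏ q ∈ P, q) : ℤ) := by
    unfold SS
    have e1 : ∀ a ∈ rr (∏ q ∈ P, q), jacobiSym (a : ℤ) 1 * 1 = 1 := by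
      intro a _
      simp
    rw [Finset.sum_congr rfl e1, Finset.sum_const, nsmul_eq_mul, mul_one]
    congr 1
    unfold rr Nat.totient
    congr 1
    ext a
    rw [Finset.mem_filter, Finset.mem_filter, Nat.coprime_comm]
  rw [h1]
  clear h1
  induction P using Finset.induction_on with
  | empty => simp
  | insert p T hp ih =>
    have hpp := hP p (Finset.mem_insert_self _ _)
    have hcop : Nat.Coprime p (∏ q ∈ T, q) := by
      refine Nat.Coprime.prod_right fun q hq => ?_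
      rw [Nat.coprime_primes hpp (hP q (Finset.mem_insert_of_mem hq))]
      rintro rfl
      exact hp hq
    rw [Finset.prod_insert hp, Finset.prod_insert hp, Nat.totient_mul hcop, Nat.totient_prime hpp,
      Nat.cast_mul, ih fun q hq => hP q (Finset.mem_insert_of_mem hq),
      Nat.cast_sub hpp.one_le]
    norm_num

/-- the number of elements of a class -/
theorem AA_one {P : Finset ℕ} (hP : ∀ q ∈ P, q.Prime ∧ q ≠ 2) (c : ℕ → ℤ)
    (hc : ∀ q ∈ P, c q = 1 ∨ c q = -1) :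
    2 ^ P.card * AA (fun _ => 1) P c = ∏ q ∈ P, ((q : ℤ) - 1) := by
  classical
  have h1 := SS_class (s := fun _ => 1) P (fun q hq => (hP q hq).1) c hc
  have h2 : ∑ T ∈ P.powerset, (∏ q ∈ T, c q) * SS (fun _ => 1) (∏ q ∈ T, q) (∏ q ∈ P, q) =
      SS (fun _ => 1) 1 (∏ q ∈ P, q) := by
    rw [Finset.sum_eq_single ∅]
    · simp
    · intro T hT hne
      rw [SS_one_zero hP (Finset.mem_powerset.1 hT) (Finset.nonempty_iff_ne_empty.2 hne), mul_zero]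
    · intro h
      exact absurd (Finset.empty_mem_powerset P) h
  rw [h2, SS_one_card P fun q hq => (hP q hq).1] at h1
  exact h1.symm

theorem prod_even_odd {P : Finset ℕ} (hP : ∀ q ∈ P, q % 4 = 3) :
    V P.card (∏ q ∈ P, ((q : ℤ) - 1)) := by
  refine V.prod _ _ fun q hq => ⟨((q : ℤ) - 3) / 4, ?_⟩
  have := hP q hq
  omega

theorem AA_one_odd {P : Finset ℕ} (hP : ∀ q ∈ P, q.Prime ∧ q % 4 = 3) (c : ℕ → ℤ)
    (hc : ∀ q ∈ P, c q = 1 ∨ c q = -1) : Odd (AA (fun _ => 1) P c) := by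
  have h1 := AA_one (P := P) (fun q hq => ⟨(hP q hq).1, by have := (hP q hq).2; omega⟩) c hc
  obtain ⟨k, hk⟩ := prod_even_odd (P := P) fun q hq => (hP q hq).2
  rw [hk] at h1
  exact ⟨k, mul_left_cancel₀ (by positivity) h1⟩

theorem dvd_prod_sub {P : Finset ℕ} (hP : ∀ q ∈ P, q.Prime ∧ q ≠ 2) {p : ℕ} (hp : p ∈ P) {k : ℕ}
    (hk : (2 : ℤ) ^ (k + 1) ∣ (p : ℤ) - 1) :
    (2 : ℤ) ^ (P.card + k) ∣ ∏ q ∈ P, ((q : ℤ) - 1) := by
  classical
  rw [← Finset.mul_prod_erase P _ hp]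
  have h1 : (2 : ℤ) ^ (P.erase p).card ∣ ∏ q ∈ P.erase p, ((q : ℤ) - 1) := by
    rw [← Finset.prod_const]
    refine Finset.prod_dvd_prod_of_dvd _ _ fun q hq => ?_
    rw [Finset.mem_erase] at hq
    have h2 := (hP q hq.2).1.eq_two_or_odd
    have h3 := (hP q hq.2).2
    omega
  have h2 : P.card + k = (k + 1) + (P.erase p).card := by
    rw [Finset.card_erase_of_mem hp]
    have := Finset.card_pos.2 ⟨p, hp⟩
    omega
  rw [h2, pow_add]
  exact mul_dvd_mul hk h1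

theorem AA_one_dvd {P : Finset ℕ} (hP : ∀ q ∈ P, q.Prime ∧ q ≠ 2) (c : ℕ → ℤ)
    (hc : ∀ q ∈ P, c q = 1 ∨ c q = -1) {p : ℕ} (hp : p ∈ P) {k : ℕ}
    (hk : (2 : ℤ) ^ (k + 1) ∣ (p : ℤ) - 1) : (2 : ℤ) ^ k ∣ AA (fun _ => 1) P c := by
  have h1 := AA_one hP c hc
  have h2 := dvd_prod_sub hP hp hk
  rw [← h1, pow_add] at h2
  exact Int.dvd_of_mul_dvd_mul_left (by positivity) h2

theorem svT_odd {t : ℚ → ℤ} {a : ℕ → ℤ} (h : SymbT t a) {M : ℕ} [NeZero M]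
    (h14 : Nat.Coprime M 14) (u : (ZMod M)ˣ) : Odd (sv t u) := by
  have h1 := h.odd M ((u : ZMod M).val : ℤ) (Nat.pos_of_ne_zero (NeZero.ne M)) h14
  push_cast at h1
  exact h1

theorem AA_sub (t : ℚ → ℤ) (P : Finset ℕ) (c : ℕ → ℤ) [NeZero (∏ q ∈ P, q)] :
    AA t P c - AA (fun _ => 1) P c = ∑ u ∈ (Finset.univ : Finset (ZMod (∏ q ∈ P, q))ˣ).filter
      (fun u => ∀ q ∈ P, chi q u = c q), (sv t u - 1) := by
  rw [AA_units t, AA_units (fun _ => 1), Finset.sum_sub_distrib]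
  rfl

/-- the class sum modulo two -/
theorem AAT_two {t : ℚ → ℤ} {a : ℕ → ℤ} (h : SymbT t a) (P : Finset ℕ) (hP : ∀ q ∈ P, q.Prime)
    (h14 : Nat.Coprime (∏ q ∈ P, q) 14) (c : ℕ → ℤ) :
    (2 : ℤ) ∣ AA t P c - AA (fun _ => 1) P c := by
  haveI : NeZero (∏ q ∈ P, q) :=
    ⟨Finset.prod_ne_zero_iff.2 fun q hq => (hP q hq).ne_zero⟩
  rw [AA_sub]
  refine Finset.dvd_sum fun u _ => ?_
  obtain ⟨k, hk⟩ := svT_odd h h14 u
  exact ⟨k, by rw [hk]; ring⟩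

theorem svT_inv {t : ℚ → ℤ} {a : ℕ → ℤ} (h : SymbT t a) {M : ℕ} [NeZero M] (e u v : (ZMod M)ˣ)
    (he : (e : ZMod M) = -14) (huv : e * u * v = 1) : sv t v = sv t u := by
  unfold sv
  have hM : 0 < M := Nat.pos_of_ne_zero (NeZero.ne M)
  have h2 := h.inv M ((u : ZMod M).val : ℤ) ((v : ZMod M).val : ℤ) hM ?_
  · push_cast at h2
    exact h2.symm
  · have h3 : ((14 * ((u : ZMod M).val : ℤ) * ((v : ZMod M).val : ℤ) + 1 : ℤ) : ZMod M) = 0 := by
      push_cast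
      rw [ZMod.natCast_zmod_val, ZMod.natCast_zmod_val]
      have h4 := congrArg (fun x : (ZMod M)ˣ => (x : ZMod M)) huv
      simp only [Units.val_mul, Units.val_one, he] at h4
      linear_combination -h4
    exact (ZMod.intCast_zmod_eq_zero_iff_dvd _ _).1 h3

theorem class_rigidT {p : ℕ} (hpp : p.Prime) (hp4 : p % 4 = 1) {r : ℤ}
    (hr : (p : ℤ) ∣ 14 * r ^ 2 + 1) (x : ℤ)
    (hx : (p : ℤ) ∣ 14 * x ^ 2 + 1) : jacobiSym x p = jacobiSym r p := by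
  have h4 : (p : ℤ) ∣ 14 * ((x - r) * (x + r)) := by
    have e1 : 14 * ((x - r) * (x + r)) = (14 * x ^ 2 + 1) - (14 * r ^ 2 + 1) := by ring
    rw [e1]
    exact dvd_sub hx hr
  have hpP : Prime (p : ℤ) := Nat.prime_iff_prime_int.1 hpp
  have h5 : ¬ (p : ℤ) ∣ 14 := by
    intro h6
    have h7 : (p : ℤ) ∣ 1 := by
      have := dvd_sub hr (dvd_mul_of_dvd_left h6 (r ^ 2))
      simpa using this
    exact hpP.not_isUnit (isUnit_of_dvd_one h7)
  rcases hpP.dvd_or_dvd h4 with h7 | h7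
  · exact absurd h7 h5
  · rcases hpP.dvd_or_dvd h7 with h8 | h8
    · rw [jac_congr h8]
    · rw [jac_congr (y := -r) (by simpa using h8), jac_neg hp4]

/-- the class sum modulo four for a class without fixed points -/
theorem AAT_four {t : ℚ → ℤ} {a : ℕ → ℤ} (h : SymbT t a) (P : Finset ℕ)
    (hP : ∀ q ∈ P, q.Prime ∧ jacobiSym (-14) q = 1) (h14 : Nat.Coprime (∏ q ∈ P, q) 14)
    (c : ℕ → ℤ) {p : ℕ} (hp : p ∈ P) (hp4 : p % 4 = 1) {r : ℤ} (hr : (p : ℤ) ∣ 14 * r ^ 2 + 1)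
    (hc : c p = - jacobiSym r p) :
    (4 : ℤ) ∣ AA t P c - AA (fun _ => 1) P c := by
  classical
  haveI : NeZero (∏ q ∈ P, q) :=
    ⟨Finset.prod_ne_zero_iff.2 fun q hq => (hP q hq).1.ne_zero⟩
  have hpp := (hP p hp).1
  obtain ⟨e, hev⟩ : ∃ e : (ZMod (∏ q ∈ P, q))ˣ, (e : ZMod (∏ q ∈ P, q)) = -14 :=
    ⟨-ZMod.unitOfCoprime 14 h14.symm, by
      rw [Units.val_neg, ZMod.coe_unitOfCoprime]; norm_num⟩
  have hechi : ∀ q ∈ P, chi q e = 1 := by
    intro q hq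
    rw [chi_val (dpm hq) e (-14) (by rw [hev]; norm_num)]
    exact (hP q hq).2
  have memG : ∀ u ∈ (Finset.univ : Finset (ZMod (∏ q ∈ P, q))ˣ).filter
      (fun u => ∀ q ∈ P, chi q u = c q), (e * u)⁻¹ ∈ (Finset.univ : Finset (ZMod (∏ q ∈ P, q))ˣ).filter
      (fun u => ∀ q ∈ P, chi q u = c q) := by
    intro u hu
    rw [Finset.mem_filter] at hu ⊢
    refine ⟨Finset.mem_univ _, fun q hq => ?_⟩
    rw [chi_inv (dpm hq), chi_mul (dpm hq), hechi q hq, one_mul]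
    exact hu.2 q hq
  have svw : ∀ u : (ZMod (∏ q ∈ P, q))ˣ, sv t (e * u)⁻¹ = sv t u := fun u =>
    svT_inv h e u (e * u)⁻¹ hev (mul_inv_cancel _)
  have ww : ∀ u : (ZMod (∏ q ∈ P, q))ˣ, (e * (e * u)⁻¹)⁻¹ = u := by
    intro u
    rw [mul_inv_rev, mul_inv_rev, mul_inv_rev]
    simp
  have nofix : ∀ u ∈ (Finset.univ : Finset (ZMod (∏ q ∈ P, q))ˣ).filter
      (fun u => ∀ q ∈ P, chi q u = c q), u ≠ (e * u)⁻¹ := by
    intro u hu heq
    rw [Finset.mem_filter] at hu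
    have h1 : e * u * u = 1 := by
      nth_rewrite 2 [heq]
      exact mul_inv_cancel _
    have h2 := congrArg (fun v : (ZMod (∏ q ∈ P, q))ˣ => (v : ZMod (∏ q ∈ P, q))) h1
    simp only [Units.val_mul, Units.val_one, hev] at h2
    have h3 : ((14 * ((u : ZMod (∏ q ∈ P, q)).val : ℤ) ^ 2 + 1 : ℤ) : ZMod (∏ q ∈ P, q)) = 0 := by
      push_cast
      rw [ZMod.natCast_zmod_val]
      linear_combination -h2
    have h4 : (p : ℤ) ∣ 14 * ((u : ZMod (∏ q ∈ P, q)).val : ℤ) ^ 2 + 1 :=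
      (Int.natCast_dvd_natCast.2 (dpm hp)).trans ((ZMod.intCast_zmod_eq_zero_iff_dvd _ _).1 h3)
    have h5 := class_rigidT hpp hp4 hr _ h4
    have h6 : chi p u = jacobiSym r p := h5
    have h8 := hu.2 p hp
    rw [h8, hc] at h6
    have h7 : jacobiSym r p = 1 ∨ jacobiSym r p = -1 := by
      rw [← h5]
      exact chi_pm (dpm hp) u
    rcases h7 with h7 | h7 <;> rw [h7] at h6 <;> norm_num at h6
  rw [AA_sub]
  have hf : ∀ u : (ZMod (∏ q ∈ P, q))ˣ, sv t u - 1 = 2 * ((sv t u - 1) / 2) := by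
    intro u
    obtain ⟨k, hk⟩ := svT_odd h h14 u
    omega
  rw [Finset.sum_congr rfl fun u _ => hf u, ← Finset.mul_sum]
  have key := dvd_sum_of_orb ((Finset.univ : Finset (ZMod (∏ q ∈ P, q))ˣ).filter
      (fun u => ∀ q ∈ P, chi q u = c q)) (fun u => (sv t u - 1) / 2) (fun u => {u, (e * u)⁻¹}) 2
      ?_ ?_ ?_
  · obtain ⟨k, hk⟩ := key
    exact ⟨k, by rw [hk]; push_cast; ring⟩
  · intro u _
    simp
  · intro u hu v hv
    simp only [Finset.mem_insert, Finset.mem_singleton] at hv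
    rcases hv with rfl | rfl
    · exact ⟨hu, rfl, rfl⟩
    · refine ⟨memG u hu, ?_, by rw [svw u]⟩
      rw [ww, Finset.pair_comm]
  · intro u hu
    exact Finset.card_pair (nofix u hu)

end Pool.Agent.Y687
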