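import Pool.Agent.Y687.K3.FinCls

/-!
The descent for twists by `p m`, `m` an integer of any sign.
-/

set_option autoImplicit false
set_option linter.style.haveILetI false

namespace Pool.Agent.Y687

/-- hypotheses of the descent for `D = p m` -/
structure HypD (m : ℤ) (p : ℕ) : Prop where
  m4 : m % 4 = 1
  pp : p.Prime
  p8 : p % 8 = 1
  sqf : Squarefree ((p : ℤ) * m)
  two : ∀ q : ℕ, q.Prime → (q : ℤ) ∣ m → q ≠ 2 ∧ q ≠ 7 ∧ ¬ IsSquare (-7 : ZMod q) ∧
    ¬ IsSquare (2 : ZMod q)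
  p7 : p ≠ 7
  sev : IsSquare (-7 : ZMod p)
  root : ∀ x : ZMod p, x ^ 2 + 13 * (m : ZMod p) * x + 128 * (m : ZMod p) ^ 2 = 0 → ¬ IsSquare x

variable {m : ℤ} {p : ℕ}

theorem HypD.case (H : HypD m p) {q : ℕ} (hq : q.Prime) (h : (q : ℤ) ∣ (p : ℤ) * m) :
    q = p ∨ (q : ℤ) ∣ m := by
  rcases (Nat.prime_iff_prime_int.1 hq).dvd_or_dvd h with h2 | h2
  · exact Or.inl ((Nat.prime_dvd_prime_iff_eq hq H.pp).1 (Int.natCast_dvd_natCast.1 h2))
  · exact Or.inr h2

theorem HypD.cls1 (H : HypD m p) : Cls1 ((p : ℤ) * m) := by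
  intro d w e N hd he hc h
  have hM0 : (p : ℤ) * m ≠ 0 := H.sqf.ne_zero
  haveI : Fact p.Prime := ⟨H.pp⟩
  have hpos := cls1_pos hM0 hd he h
  have hdvd := div_dvd hc h
  have h1 : ∀ q : ℕ, q.Prime → (q : ℤ) ∣ d → ¬ (q : ℤ) ∣ m := by
    intro q hq hqd hqm
    obtain ⟨n2, n7, hs7, hs2⟩ := H.two q hq hqm
    exact hs7 (cls1_prime H.sqf hd hc h hq hqd (hqm.mul_left _) n7)
  have h2 : ¬ (p : ℤ) ∣ d := by
    intro hpd
    obtain ⟨d1, M1, hdd, hMM, k1, k2, k3⟩ := local_root hd H.sqf hc h H.pp hpd (Dvd.intro _ rfl)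
    have hp0 : (p : ℤ) ≠ 0 := by exact_mod_cast H.pp.ne_zero
    have hM1 : M1 = m := (mul_left_cancel₀ hp0 hMM).symm
    have hd1sf : Squarefree d1 := by
      rw [hdd] at hd
      exact hd.of_mul_right
    have hd1pos : 0 < d1 := by
      rw [hdd] at hpos
      exact (mul_pos_iff_of_pos_left (by exact_mod_cast H.pp.pos)).1 hpos
    have h3 : d1 ∣ 128 := by
      refine dvd_of_no_common (M := (p : ℤ) * m) ((Dvd.intro_left _ hdd.symm).trans hdvd)
        fun q hq hqd hqM => ?_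
      rcases H.case hq hqM with rfl | hqm
      · have := hd q (by
          obtain ⟨k, hk⟩ := hqd
          exact ⟨k, by rw [hdd, hk]; ring⟩)
        exact (Nat.prime_iff_prime_int.1 hq).not_isUnit this
      · exact h1 q hq (hdd ▸ hqd.mul_left _) hqm
    have hs : IsSquare (d1 : ZMod p) := by
      rcases unit1 hd1pos hd1sf h3 with rfl | rfl
      · exact ⟨1, by push_cast; ring⟩
      · push_cast
        exact (ZMod.exists_sq_eq_two_iff (by have := H.p8; rintro rfl; omega)).2 (Or.inl H.p8)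
    obtain ⟨r, hr⟩ := hs
    refine H.root ((d1 : ZMod p) * (w : ZMod p) ^ 2 / (e : ZMod p) ^ 2) ?_ ?_
    · rw [hM1] at k3
      push_cast at k3
      field_simp
      linear_combination k3
    · refine ⟨r * (w : ZMod p) / (e : ZMod p), ?_⟩
      rw [hr]
      field_simp
  refine unit1 hpos hd ?_
  refine dvd_of_no_common (M := (p : ℤ) * m) hdvd fun q hq hqd hqM => ?_
  rcases H.case hq hqM with rfl | hqm
  · exact h2 hqd
  · exact h1 q hq hqd hqm

theorem HypD.cls2 (H : HypD m p) : Cls2 ((p : ℤ) * m) := by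
  intro d w e N hd hc h
  haveI : Fact p.Prime := ⟨H.pp⟩
  have hdvd := div_dvd hc h
  have h1 : ∀ q : ℕ, q.Prime → (q : ℤ) ∣ d → ¬ (q : ℤ) ∣ m := by
    intro q hq hqd hqm
    obtain ⟨n2, n7, hs7, hs2⟩ := H.two q hq hqm
    exact hs2 (cls2_prime H.sqf hd hc h hq hqd (hqm.mul_left _) n2)
  have h2 : ¬ (p : ℤ) ∣ d := by
    intro hpd
    obtain ⟨d1, M1, hdd, hMM, k1, k2, k3⟩ := local_root hd H.sqf hc h H.pp hpd (Dvd.intro _ rfl)
    have hp0 : (p : ℤ) ≠ 0 := by exact_mod_cast H.pp.ne_zero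
    have hM1 : M1 = m := (mul_left_cancel₀ hp0 hMM).symm
    have hd1sf : Squarefree d1 := by
      rw [hdd] at hd
      exact hd.of_mul_right
    have h3 : d1 ∣ -343 := by
      refine dvd_of_no_common (M := (p : ℤ) * m) ((Dvd.intro_left _ hdd.symm).trans hdvd)
        fun q hq hqd hqM => ?_
      rcases H.case hq hqM with rfl | hqm
      · have := hd q (by
          obtain ⟨k, hk⟩ := hqd
          exact ⟨k, by rw [hdd, hk]; ring⟩)
        exact (Nat.prime_iff_prime_int.1 hq).not_isUnit this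
      · exact h1 q hq (hdd ▸ hqd.mul_left _) hqm
    have n2' : (2 : ZMod p) ≠ 0 := by
      exact_mod_cast prime_cast_ne H.pp 2 Nat.prime_two (by have := H.p8; rintro rfl; omega)
    obtain ⟨i, hi⟩ := (ZMod.exists_sq_eq_neg_one_iff (p := p)).2 (by have := H.p8; omega)
    obtain ⟨δ, hδ⟩ := H.sev
    have hs : IsSquare (d1 : ZMod p) := by
      rcases unit2 hd1sf h3 with rfl | rfl | rfl | rfl
      · exact ⟨1, by push_cast; ring⟩
      · exact ⟨i, by push_cast; exact hi⟩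
      · exact ⟨i * δ, by push_cast; linear_combination (-7 : ZMod p) * hi + (i * i) * hδ⟩
      · exact ⟨δ, by push_cast; exact hδ⟩
    obtain ⟨r, hr⟩ := hs
    have hw0 : (w : ZMod p) ≠ 0 := by
      intro hw0
      push_cast at k3
      rw [hw0] at k3
      have h6 : (343 : ZMod p) * ((M1 : ZMod p) * (e : ZMod p) ^ 2) ^ 2 = 0 := by
        linear_combination -k3
      rcases mul_eq_zero.1 h6 with h7 | h7
      · have n7' : (7 : ZMod p) ≠ 0 := by exact_mod_cast prime_cast_ne H.pp 7 (by norm_num) H.p7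
        rw [show (343 : ZMod p) = 7 ^ 3 by norm_num] at h7
        exact pow_ne_zero _ n7' h7
      · exact pow_ne_zero _ (mul_ne_zero k1 (pow_ne_zero _ k2)) h7
    have hd10 : (d1 : ZMod p) ≠ 0 := by
      rw [Ne, ZMod.intCast_zmod_eq_zero_iff_dvd]
      rintro ⟨k, hk⟩
      have := hd p ⟨k, by rw [hdd, hk]; ring⟩
      exact (Nat.prime_iff_prime_int.1 H.pp).not_isUnit this
    have hr0 : r ≠ 0 := by
      rintro rfl
      apply hd10
      rw [hr]; ring
    set y : ZMod p := r * (w : ZMod p) / (e : ZMod p) with hy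
    have hy0 : y ≠ 0 := div_ne_zero (mul_ne_zero hr0 hw0) k2
    have hx : (y ^ 2) ^ 2 - 26 * (m : ZMod p) * y ^ 2 - 343 * (m : ZMod p) ^ 2 = 0 := by
      rw [hM1] at k3
      push_cast at k3
      rw [hr] at k3
      rw [hy]
      field_simp
      linear_combination k3
    set ρ : ZMod p := (m : ZMod p) * (-13 + 7 * δ) / 2 with hρ
    have hρ2 : 2 * ρ = (m : ZMod p) * (-13 + 7 * δ) := by rw [hρ]; field_simp
    have n4 : (4 : ZMod p) ≠ 0 := by
      rw [show (4 : ZMod p) = 2 * 2 by norm_num]; exact mul_ne_zero n2' n2'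
    have hroot : ρ ^ 2 + 13 * (m : ZMod p) * ρ + 128 * (m : ZMod p) ^ 2 = 0 := by
      apply mul_left_cancel₀ n4
      linear_combination (2 * ρ + (m : ZMod p) * (-13 + 7 * δ) + 26 * (m : ZMod p)) * hρ2
        - 49 * (m : ZMod p) ^ 2 * hδ
    apply H.root ρ hroot
    refine ⟨i * (ρ + (13 * (m : ZMod p) - y ^ 2) / 2) / y, ?_⟩
    have e1 : 2 * ((13 * (m : ZMod p) - y ^ 2) / 2) = 13 * (m : ZMod p) - y ^ 2 := by field_simp
    set t : ZMod p := (13 * (m : ZMod p) - y ^ 2) / 2 with ht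
    have e2 : -(y ^ 2) * ρ = (ρ + t) ^ 2 := by
      apply mul_left_cancel₀ n4
      linear_combination (-(4 * ρ + 2 * t + 13 * (m : ZMod p) - y ^ 2)) * e1 - 4 * hroot - hx
    rw [div_mul_div_comm, eq_div_iff (mul_ne_zero hy0 hy0)]
    linear_combination (-1 : ZMod p) * e2 + ((ρ + t) ^ 2) * hi
  have h5 := unit2 hd (by
    refine dvd_of_no_common (M := (p : ℤ) * m) hdvd fun q hq hqd hqM => ?_
    rcases H.case hq hqM with rfl | hqm
    · exact h2 hqd
    · exact h1 q hq hqd hqm)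
  have hM4 : ((p : ℤ) * m) % 4 = 1 := by
    have h6 := H.m4
    have h7 : (p : ℤ) % 4 = 1 := by have := H.p8; omega
    rw [Int.mul_emod, h6, h7]; norm_num
  rcases h5 with rfl | rfl | rfl | rfl
  · exact Or.inl rfl
  · exfalso
    refine not_neg_one hM4 (hc.of_mul_left_right) (N := N) ?_
    linear_combination h
  · exfalso
    refine not_seven hM4 (hc.of_mul_left_right) (N := N) ?_
    apply mul_left_cancel₀ (show (7 : ℤ) ≠ 0 by norm_num)
    linear_combination h
  · exact Or.inr rfl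

/-- finitely many rational points -/
theorem HypD.finite_set (H : HypD m p) : {q : ℚ × ℚ | q.2 ^ 2 = q.1 ^ 3 +
    ((5805 * ((p : ℤ) * m) ^ 2 : ℤ) : ℚ) * q.1 +
      ((-285714 * ((p : ℤ) * m) ^ 3 : ℤ) : ℚ)}.Finite :=
  finite_set_of_cls H.sqf.ne_zero H.cls1 H.cls2

/-! ### twists by inert primes only -/

/-- hypotheses of the descent for a product of inert primes -/
structure HypI (m : ℤ) : Prop where
  m4 : m % 4 = 1
  sqf : Squarefree m
  two : ∀ q : ℕ, q.Prime → (q : ℤ) ∣ m → q ≠ 2 ∧ q ≠ 7 ∧ ¬ IsSquare (-7 : ZMod q) ∧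
    ¬ IsSquare (2 : ZMod q)

theorem HypI.cls1 (H : HypI m) : Cls1 m := by
  intro d w e N hd he hc h
  have hM0 : m ≠ 0 := H.sqf.ne_zero
  have hpos := cls1_pos hM0 hd he h
  have hdvd := div_dvd hc h
  refine unit1 hpos hd ?_
  refine dvd_of_no_common (M := m) hdvd fun q hq hqd hqm => ?_
  obtain ⟨n2, n7, hs7, hs2⟩ := H.two q hq hqm
  exact hs7 (cls1_prime H.sqf hd hc h hq hqd hqm n7)

theorem HypI.cls2 (H : HypI m) : Cls2 m := by
  intro d w e N hd hc h
  have hdvd := div_dvd hc h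
  have h5 := unit2 hd (by
    refine dvd_of_no_common (M := m) hdvd fun q hq hqd hqm => ?_
    obtain ⟨n2, n7, hs7, hs2⟩ := H.two q hq hqm
    exact hs2 (cls2_prime H.sqf hd hc h hq hqd hqm n2))
  rcases h5 with rfl | rfl | rfl | rfl
  · exact Or.inl rfl
  · exfalso
    refine not_neg_one H.m4 (hc.of_mul_left_right) (N := N) ?_
    linear_combination h
  · exfalso
    refine not_seven H.m4 (hc.of_mul_left_right) (N := N) ?_
    apply mul_left_cancel₀ (show (7 : ℤ) ≠ 0 by norm_num)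
    linear_combination h
  · exact Or.inr rfl

theorem HypI.finite_set (H : HypI m) : {q : ℚ × ℚ | q.2 ^ 2 = q.1 ^ 3 +
    ((5805 * m ^ 2 : ℤ) : ℚ) * q.1 + ((-285714 * m ^ 3 : ℤ) : ℚ)}.Finite :=
  finite_set_of_cls H.sqf.ne_zero H.cls1 H.cls2

end Pool.Agent.Y687
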