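import Pool.Agent.Y687.K4.CardT

/-!
The twisted sums for products of inert primes of any class modulo `4`, times at most one split
prime.
-/

set_option autoImplicit false
set_option linter.style.haveILetI false

open Finset

namespace Pool.Agent.Y687

theorem SST_prod {t : ℚ → ℤ} {a : ℕ → ℤ} (h : SymbT t a) (T U : Finset ℕ) (hTU : Disjoint T U)
    (hT : ∀ q ∈ T, q.Prime) (hU : ∀ q ∈ U, q.Prime ∧ ¬ q ∣ 14) :
    SS t (∏ q ∈ T, q) ((∏ q ∈ T, q) * ∏ q ∈ U, q)
      = (∏ q ∈ U, (a q - 2 * jacobiSym q (∏ q ∈ T, q))) * SS t (∏ q ∈ T, q) (∏ q ∈ T, q) := by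
  classical
  induction U using Finset.induction_on with
  | empty => simp
  | insert p U hp ih =>
    rw [Finset.prod_insert hp, Finset.prod_insert hp]
    have hpp := (hU p (Finset.mem_insert_self _ _))
    have e1 : (∏ q ∈ T, q) * (p * ∏ q ∈ U, q) = ((∏ q ∈ T, q) * ∏ q ∈ U, q) * p := by ring
    have hT0 : 0 < ∏ q ∈ T, q := Finset.prod_pos fun q hq => (hT q hq).pos
    have hU0 : 0 < ∏ q ∈ U, q :=
      Finset.prod_pos fun q hq => (hU q (Finset.mem_insert_of_mem hq)).1.pos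
    have hcop : Nat.Coprime p ((∏ q ∈ T, q) * ∏ q ∈ U, q) := by
      refine Nat.Coprime.mul_right ?_ ?_
      · refine Nat.Coprime.prod_right fun q hq => ?_
        rw [Nat.coprime_primes hpp.1 (hT q hq)]
        rintro rfl
        exact (Finset.disjoint_left.1 hTU hq) (Finset.mem_insert_self _ _)
      · refine Nat.Coprime.prod_right fun q hq => ?_
        rw [Nat.coprime_primes hpp.1 (hU q (Finset.mem_insert_of_mem hq)).1]
        rintro rfl
        exact hp hq
    rw [e1, SS_mul h.per hpp.1 (h.hecke p hpp.1 hpp.2) (Nat.mul_pos hT0 hU0) (Dvd.intro _ rfl) hcop,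
      ih (hTU.mono_right (Finset.subset_insert _ _))
        (fun q hq => hU q (Finset.mem_insert_of_mem hq)), mul_assoc]

theorem SST_sub {t : ℚ → ℤ} {a : ℕ → ℤ} (h : SymbT t a) {T S : Finset ℕ} (hTS : T ⊆ S)
    (hS : ∀ q ∈ S, q.Prime ∧ ¬ q ∣ 14) :
    SS t (∏ q ∈ T, q) (∏ q ∈ S, q)
      = (∏ q ∈ S \ T, (a q - 2 * jacobiSym q (∏ q ∈ T, q))) * SS t (∏ q ∈ T, q) (∏ q ∈ T, q) := by
  classical
  have h1 := SST_prod h T (S \ T) Finset.disjoint_sdiff (fun q hq => (hS q (hTS hq)).1)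
    (fun q hq => hS q (Finset.mem_sdiff.1 hq).1)
  rw [← h1, mul_comm, Finset.prod_sdiff hTS]

/-- condition on the inert primes -/
def isN (a : ℕ → ℤ) (q : ℕ) : Prop :=
  q.Prime ∧ jacobiSym (-14) q = 1 ∧
    ((q % 4 = 1 ∧ (4 : ℤ) ∣ a q) ∨ (q % 4 = 3 ∧ (4 : ℤ) ∣ a q - 2))

theorem not_dvd14T {q : ℕ} (hq : q.Prime) (h : jacobiSym (-14) q = 1) : ¬ q ∣ 14 := by
  intro h1
  haveI : NeZero q := ⟨hq.ne_zero⟩
  have h0 : jacobiSym (-14 : ℤ) q = 0 := by
    rw [jacobiSym.eq_zero_iff_not_coprime]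
    intro hg
    have h2 : Int.gcd (-((14 : ℕ) : ℤ)) (q : ℤ) = 1 := hg
    rw [Int.neg_gcd] at h2
    have h4 : Int.gcd ((14 : ℕ) : ℤ) (q : ℤ) = 1 := h2
    rw [Int.gcd_natCast_natCast] at h4
    have h3 := Nat.dvd_gcd h1 (dvd_refl q)
    rw [h4] at h3
    exact hq.one_lt.ne' (Nat.dvd_one.1 h3)
  rw [h] at h0
  norm_num at h0

theorem isN.ne2 {a : ℕ → ℤ} {q : ℕ} (h : isN a q) : q ≠ 2 := by
  rcases h.2.2 with h1 | h1 <;> omega

theorem cop14_prod {P : Finset ℕ} (hP : ∀ q ∈ P, q.Prime ∧ ¬ q ∣ 14) :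
    Nat.Coprime (∏ q ∈ P, q) 14 :=
  Nat.Coprime.prod_left fun q hq => (Nat.Prime.coprime_iff_not_dvd (hP q hq).1).2 (hP q hq).2

/-- the factor at an inert prime -/
theorem isN.factor {a : ℕ → ℤ} {q : ℕ} (h : isN a q) {T : Finset ℕ}
    (hT : ∀ p ∈ T, p.Prime) (hqT : q ∉ T) :
    (q % 4 = 1 → V 1 (a q - 2 * jacobiSym q (∏ q ∈ T, q))) ∧
      (q % 4 = 3 → (4 : ℤ) ∣ a q - 2 * jacobiSym q (∏ q ∈ T, q)) := by
  have hg : Int.gcd (q : ℤ) ((∏ q ∈ T, q : ℕ) : ℤ) = 1 := by
    rw [Int.gcd_natCast_natCast]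
    refine Nat.Coprime.prod_right fun p hp => ?_
    rw [Nat.coprime_primes h.1 (hT p hp)]
    rintro rfl
    exact hqT hp
  constructor
  · intro h4
    have h5 : (4 : ℤ) ∣ a q := by
      rcases h.2.2 with h6 | h6
      · exact h6.2
      · omega
    obtain ⟨k, hk⟩ := h5
    rcases jacobiSym.eq_one_or_neg_one hg with h1 | h1
    · rw [h1, hk]
      exact ⟨k - 1, by ring⟩
    · rw [h1, hk]
      exact ⟨k, by ring⟩
  · intro h4
    have h5 : (4 : ℤ) ∣ a q - 2 := by
      rcases h.2.2 with h6 | h6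
      · omega
      · exact h6.2
    obtain ⟨k, hk⟩ := h5
    rcases jacobiSym.eq_one_or_neg_one hg with h1 | h1
    · rw [h1]
      exact ⟨k, by linear_combination hk⟩
    · rw [h1]
      exact ⟨k + 1, by linear_combination hk⟩

theorem isN.factor_two {a : ℕ → ℤ} {q : ℕ} (h : isN a q) {T : Finset ℕ}
    (hT : ∀ p ∈ T, p.Prime) (hqT : q ∉ T) :
    (2 : ℤ) ∣ a q - 2 * jacobiSym q (∏ q ∈ T, q) := by
  have h1 := h.factor hT hqT
  rcases h.2.2 with h2 | h2
  · obtain ⟨k, hk⟩ := h1.1 h2.1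
    exact ⟨2 * k + 1, by rw [hk]; ring⟩
  · obtain ⟨k, hk⟩ := h1.2 h2.1
    exact ⟨2 * k, by rw [hk]; ring⟩

/-- product of the factors -/
theorem prod_factor_V {a : ℕ → ℤ} {W U : Finset ℕ} (hW : ∀ q ∈ W, isN a q)
    (hU : ∀ p ∈ U, p.Prime) (hd : Disjoint W U) (h4 : ∀ q ∈ W, q % 4 = 1) :
    V W.card (∏ q ∈ W, (a q - 2 * jacobiSym q (∏ q ∈ U, q))) :=
  V.prod _ _ fun q hq => ((hW q hq).factor hU (Finset.disjoint_left.1 hd hq)).1 (h4 q hq)

theorem prod_factor_dvd {a : ℕ → ℤ} {W U : Finset ℕ} (hW : ∀ q ∈ W, isN a q)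
    (hU : ∀ p ∈ U, p.Prime) (hd : Disjoint W U) {q0 : ℕ} (hq0 : q0 ∈ W) (h4 : q0 % 4 = 3) :
    (2 : ℤ) ^ (W.card + 1) ∣ ∏ q ∈ W, (a q - 2 * jacobiSym q (∏ q ∈ U, q)) := by
  classical
  rw [← Finset.mul_prod_erase W _ hq0]
  have h1 : (2 : ℤ) ^ (W.erase q0).card ∣
      ∏ q ∈ W.erase q0, (a q - 2 * jacobiSym q (∏ q ∈ U, q)) := by
    rw [← Finset.prod_const]
    refine Finset.prod_dvd_prod_of_dvd _ _ fun q hq => ?_
    rw [Finset.mem_erase] at hq
    exact (hW q hq.2).factor_two hU (Finset.disjoint_left.1 hd hq.2)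
  have h2 : W.card + 1 = 2 + (W.erase q0).card := by
    rw [Finset.card_erase_of_mem hq0]
    have := Finset.card_pos.2 ⟨q0, hq0⟩
    omega
  rw [h2, pow_add]
  refine mul_dvd_mul ?_ h1
  have h3 := ((hW q0 hq0).factor hU (Finset.disjoint_left.1 hd hq0)).2 h4
  norm_num
  exact h3

theorem SS_one_one (t : ℚ → ℤ) : SS t 1 1 = t 0 := by
  unfold SS
  have : rr 1 = {0} := by decide
  rw [this, Finset.sum_singleton]
  simp

/-- the sets which contain all the primes congruent to `3` modulo `4` -/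
def fullT (P T : Finset ℕ) : Prop := ∀ q ∈ P, q % 4 = 3 → q ∈ T

instance (P T : Finset ℕ) : Decidable (fullT P T) := by unfold fullT; infer_instance

/-- the inert products -/
theorem L_inertT {t : ℚ → ℤ} {a : ℕ → ℤ} (h : SymbT t a) (P : Finset ℕ) :
    (∀ q ∈ P, isN a q) → V P.card (SS t (∏ q ∈ P, q) (∏ q ∈ P, q)) := by
  classical
  induction P using Finset.strongInduction with
  | H P ih =>
    intro hP
    have hPp : ∀ q ∈ P, q.Prime ∧ ¬ q ∣ 14 := fun q hq =>
      ⟨(hP q hq).1, not_dvd14T (hP q hq).1 (hP q hq).2.1⟩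
    have hc14 := cop14_prod hPp
    have h1 := SS_class (s := t) P (fun q hq => (hP q hq).1) (fun _ => 1) (fun _ _ => Or.inl rfl)
    simp only [Finset.prod_const_one, one_mul] at h1
    have h2 := AAT_two h P (fun q hq => (hP q hq).1) hc14 (fun _ => 1)
    -- the terms
    have h3 : ∀ T ∈ P.powerset.erase P, (2 : ℤ) ^ (P.card + 1) ∣
        SS t (∏ q ∈ T, q) (∏ q ∈ P, q) - if fullT P T then 2 ^ P.card else 0 := by
      intro T hT
      rw [Finset.mem_erase, Finset.mem_powerset] at hT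
      rw [SST_sub h hT.2 hPp]
      have h4 : (P \ T).card + T.card = P.card := Finset.card_sdiff_add_card_eq_card hT.2
      have h5 := ih T (Finset.ssubset_iff_subset_ne.2 ⟨hT.2, hT.1⟩) fun q hq => hP q (hT.2 hq)
      have hW : ∀ q ∈ P \ T, isN a q := fun q hq => hP q (Finset.mem_sdiff.1 hq).1
      have hU : ∀ p ∈ T, p.Prime := fun p hp => (hP p (hT.2 hp)).1
      split_ifs with hf
      · rw [← h4]
        refine (V.mul (prod_factor_V hW hU Finset.sdiff_disjoint fun q hq => ?_) h5).dvd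
        rw [Finset.mem_sdiff] at hq
        have h6 := (hP q hq.1).2.2
        by_contra h7
        exact hq.2 (hf q hq.1 (by omega))
      · rw [sub_zero, ← h4]
        unfold fullT at hf
        push Not at hf
        obtain ⟨q0, hq0, hq3, hqT⟩ := hf
        obtain ⟨k, hk⟩ := h5
        obtain ⟨l, hl⟩ := prod_factor_dvd hW hU Finset.sdiff_disjoint
          (Finset.mem_sdiff.2 ⟨hq0, hqT⟩) hq3
        rw [hk, hl]
        exact ⟨l * (2 * k + 1), by ring⟩
    have h5 := Finset.dvd_sum h3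
    rw [Finset.sum_sub_distrib] at h5
    rw [← Finset.add_sum_erase _ _ (Finset.mem_powerset_self P)] at h1
    have hAA : AA t P (fun _ => 1) = ∑ a ∈ (rr (∏ q ∈ P, q)).filter
        (fun a : ℕ => ∀ q ∈ P, jacobiSym (a : ℤ) q = 1), t ((a : ℚ) / ((∏ q ∈ P, q : ℕ) : ℚ)) := rfl
    rw [← hAA] at h1
    by_cases hex : ∃ q0 ∈ P, q0 % 4 = 1
    · obtain ⟨q0, hq0, hq4⟩ := hex
      have hP2 : ∀ q ∈ P, q.Prime ∧ q ≠ 2 := fun q hq => ⟨(hP q hq).1, (hP q hq).ne2⟩
      -- the class sum is even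
      have h6 : (2 : ℤ) ^ 1 ∣ AA (fun _ => 1) P (fun _ => 1) :=
        AA_one_dvd hP2 _ (fun _ _ => Or.inl rfl) hq0 (by
          norm_num
          omega)
      -- the sum of the main terms
      have h7 : (2 : ℤ) ^ (P.card + 1) ∣ ∑ T ∈ P.powerset, if fullT P T then 2 ^ P.card else 0 := by
        obtain ⟨P0, hP0, rfl⟩ : ∃ P0, q0 ∉ P0 ∧ P = insert q0 P0 :=
          ⟨P.erase q0, Finset.notMem_erase _ _, (Finset.insert_erase hq0).symm⟩
        rw [Finset.sum_powerset_insert hP0, ← Finset.sum_add_distrib]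
        refine Finset.dvd_sum fun T hT => ?_
        have h8 : fullT (insert q0 P0) (insert q0 T) ↔ fullT (insert q0 P0) T := by
          unfold fullT
          constructor
          · intro h9 q hq hq3
            rcases Finset.mem_insert.1 (h9 q hq hq3) with h10 | h10
            · subst h10; omega
            · exact h10
          · intro h9 q hq hq3
            exact Finset.mem_insert_of_mem (h9 q hq hq3)
        by_cases h9 : fullT (insert q0 P0) T
        · rw [if_pos h9, if_pos (h8.2 h9)]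
          exact ⟨1, by rw [pow_succ]; ring⟩
        · rw [if_neg h9, if_neg fun h10 => h9 (h8.1 h10)]
          simp
      rw [← Finset.add_sum_erase _ _ (Finset.mem_powerset_self P),
        if_pos (show fullT P P from fun q hq _ => hq)] at h7
      obtain ⟨x1, hx1⟩ := h2
      obtain ⟨x2, hx2⟩ := h5
      obtain ⟨x3, hx3⟩ := h6
      obtain ⟨x4, hx4⟩ := h7
      refine V.of_dvd ⟨x1 + x3 - x2 - x4, ?_⟩
      rw [pow_succ] at hx2 hx4 ⊢
      rw [pow_one] at hx3
      linear_combination h1 + 2 ^ P.card * hx1 - hx2 + 2 ^ P.card * hx3 - hx4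
    · push Not at hex
      have hP3 : ∀ q ∈ P, q.Prime ∧ q % 4 = 3 := fun q hq => ⟨(hP q hq).1, by
        have h6 := (hP q hq).2.2
        have h7 := hex q hq
        omega⟩
      obtain ⟨k, hk⟩ := AA_one_odd hP3 (fun _ => 1) fun _ _ => Or.inl rfl
      have h7 : ∑ T ∈ P.powerset.erase P, (if fullT P T then (2 : ℤ) ^ P.card else 0) = 0 := by
        refine Finset.sum_eq_zero fun T hT => if_neg fun hf => ?_
        rw [Finset.mem_erase, Finset.mem_powerset] at hT
        exact hT.1 (Finset.Subset.antisymm hT.2 fun q hq => hf q hq (hP3 q hq).2)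
      rw [h7, sub_zero] at h5
      obtain ⟨x1, hx1⟩ := h2
      obtain ⟨x2, hx2⟩ := h5
      refine V.of_dvd ⟨x1 + k - x2, ?_⟩
      rw [pow_succ] at hx2 ⊢
      linear_combination h1 + 2 ^ P.card * hx1 - hx2 + 2 ^ P.card * hk

/-- one split prime -/
theorem sum_splitT {t : ℚ → ℤ} {a : ℕ → ℤ} (h : SymbT t a) (p : ℕ) (hp : p.Prime)
    (hp8 : p % 8 = 1) (hp14 : jacobiSym (-14) p = 1) (h2 : (4 : ℤ) ∣ a p - 2) (S : Finset ℕ) :
    (∀ q ∈ S, isN a q) → p ∉ S →
      (2 : ℤ) ^ (S.card + 3) ∣ SS t (p * ∏ q ∈ S, q) (p * ∏ q ∈ S, q)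
        - 2 ^ S.card * (a p - 2 * jacobiSym p (∏ q ∈ S, q)) := by
  classical
  induction S using Finset.strongInduction with
  | H S ih =>
    intro hS hpS
    have hX : ∀ T ⊆ S, ∃ x : ℤ, a p - 2 * jacobiSym p (∏ q ∈ T, q) = 4 * x := by
      intro T hT
      have hg : Int.gcd (p : ℤ) ((∏ q ∈ T, q : ℕ) : ℤ) = 1 := by
        rw [Int.gcd_natCast_natCast]
        refine Nat.Coprime.prod_right fun q hq => ?_
        rw [Nat.coprime_primes hp (hS q (hT hq)).1]
        rintro rfl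
        exact hpS (hT hq)
      obtain ⟨k, hk⟩ := h2
      rcases jacobiSym.eq_one_or_neg_one hg with h1 | h1
      · rw [h1]; exact ⟨k, by linear_combination hk⟩
      · rw [h1]; exact ⟨k + 1, by linear_combination hk⟩
    have hp0 : jacobiSym (-14) p = 1 := hp14
    obtain ⟨r, hr⟩ : ∃ r : ℤ, (p : ℤ) ∣ 14 * r ^ 2 + 1 := by
      haveI : Fact p.Prime := ⟨hp⟩
      have h140 : ((-14 : ℤ) : ZMod p) ≠ 0 := by
        intro h0
        rw [ZMod.intCast_zmod_eq_zero_iff_dvd, dvd_neg] at h0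
        exact not_dvd14T hp hp14 (by exact_mod_cast h0)
      rw [← jacobiSym.legendreSym.to_jacobiSym, legendreSym.eq_one_iff p h140] at hp14
      obtain ⟨w, hw⟩ := hp14
      have hw0 : w ≠ 0 := by
        rintro rfl
        apply h140
        rw [hw]; ring
      refine ⟨((w⁻¹).val : ℤ), ?_⟩
      rw [← ZMod.intCast_zmod_eq_zero_iff_dvd]
      push_cast at hw ⊢
      rw [ZMod.natCast_zmod_val]
      have h14 : (14 : ZMod p) = -(w * w) := by linear_combination -hw
      rw [h14]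
      field_simp
      ring
    have hrp : jacobiSym r p = 1 ∨ jacobiSym r p = -1 := by
      refine jacobiSym.eq_one_or_neg_one ?_
      by_contra hg
      have h3 : (p : ℤ) ∣ r := by
        have h4 : ¬ IsCoprime r (p : ℤ) := fun hc => hg (Int.isCoprime_iff_gcd_eq_one.1 hc)
        have hpP : Prime (p : ℤ) := Nat.prime_iff_prime_int.1 hp
        by_contra h5
        exact h4 ((Prime.coprime_iff_not_dvd hpP).2 h5).symm
      have h4 : (p : ℤ) ∣ 1 := by
        have := dvd_sub hr (Dvd.dvd.mul_left (dvd_pow h3 two_ne_zero) 14)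
        simpa using this
      have h5 := Int.natCast_dvd_natCast.1 (by exact_mod_cast h4 : ((p : ℕ) : ℤ) ∣ ((1 : ℕ) : ℤ))
      exact hp.one_lt.ne' (Nat.dvd_one.1 h5)
    -- class signs
    set S' : Finset ℕ := insert p S with hS'
    have hSj : ∀ q ∈ S', q.Prime ∧ jacobiSym (-14) q = 1 := by
      intro q hq
      rcases Finset.mem_insert.1 hq with rfl | hq
      · exact ⟨hp, hp0⟩
      · exact ⟨(hS q hq).1, (hS q hq).2.1⟩
    have hSp : ∀ q ∈ S', q.Prime ∧ ¬ q ∣ 14 := fun q hq =>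
      ⟨(hSj q hq).1, not_dvd14T (hSj q hq).1 (hSj q hq).2⟩
    have hc14 := cop14_prod hSp
    have hSp2 : ∀ q ∈ S', q.Prime ∧ q ≠ 2 := by
      intro q hq
      refine ⟨(hSp q hq).1, ?_⟩
      rintro rfl
      exact (hSp 2 hq).2 (by norm_num)
    set c : ℕ → ℤ := fun q => if q = p then - jacobiSym r p else 1 with hc
    have hcpm : ∀ q, c q = 1 ∨ c q = -1 := by
      intro q
      simp only [hc]
      split_ifs
      · rcases hrp with h3 | h3 <;> rw [h3] <;> norm_num
      · exact Or.inl rfl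
    have hcT : ∀ T : Finset ℕ, (∏ q ∈ T, c q) = 1 ∨ (∏ q ∈ T, c q) = -1 := by
      intro T
      induction T using Finset.induction_on with
      | empty => left; simp
      | insert q T hq ihT =>
        rw [Finset.prod_insert hq]
        rcases hcpm q with h3 | h3 <;> rcases ihT with h4 | h4 <;> rw [h3, h4] <;> norm_num
    have h3 := SS_class (s := t) S' (fun q hq => (hSp q hq).1) c (fun q _ => hcpm q)
    have h4 : (4 : ℤ) ∣ AA t S' c := by
      have k1 := AAT_four h S' hSj hc14 c (Finset.mem_insert_self _ _) (by omega) hr (by simp [hc])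
      have k2 : (2 : ℤ) ^ 2 ∣ AA (fun _ => 1) S' c :=
        AA_one_dvd hSp2 c (fun q _ => hcpm q) (Finset.mem_insert_self _ _) (by
          norm_num
          omega)
      norm_num at k2
      have := dvd_add k1 k2
      simpa using this
    obtain ⟨m, hm⟩ := h4
    have h5 : ∑ T ∈ S'.powerset, (∏ q ∈ T, c q) * SS t (∏ q ∈ T, q) (∏ q ∈ S', q)
        = 2 ^ (S.card + 3) * m := by
      have h6 : S'.card = S.card + 1 := Finset.card_insert_of_notMem hpS
      have h7 := h3
      rw [h6] at h7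
      have h8 : AA t S' c = 4 * m := hm
      unfold AA at h8
      rw [h7, h8]
      ring
    rw [hS', Finset.sum_powerset_insert hpS, ← hS'] at h5
    -- the main terms
    obtain ⟨E, hE⟩ : ∃ E : Finset ℕ → ℤ, ∀ T, E T =
        if fullT S T then 2 ^ S.card * (a p - 2 * jacobiSym p (∏ q ∈ T, q)) else 0 :=
      ⟨_, fun T => rfl⟩
    have hnf : ∀ T ⊆ S, ¬ fullT S T → ∃ q0 ∈ S \ T, q0 % 4 = 3 := by
      intro T hT hf
      unfold fullT at hf
      push Not at hf
      obtain ⟨q0, hq0, hq3, hqT⟩ := hf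
      exact ⟨q0, Finset.mem_sdiff.2 ⟨hq0, hqT⟩, hq3⟩
    have hff : ∀ T, fullT S T → ∀ q ∈ S \ T, q % 4 = 1 := by
      intro T hf q hq
      rw [Finset.mem_sdiff] at hq
      have h6 := (hS q hq.1).2.2
      by_contra h7
      exact hq.2 (hf q hq.1 (by omega))
    -- first kind of terms
    have t1 : ∀ T ∈ S.powerset, (2 : ℤ) ^ (S.card + 3) ∣
        (∏ q ∈ T, c q) * SS t (∏ q ∈ T, q) (∏ q ∈ S', q) - E T := by
      intro T hT
      rw [Finset.mem_powerset] at hT
      rw [SST_sub h (hT.trans (Finset.subset_insert _ _)) hSp, hE]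
      have e1 : S' \ T = insert p (S \ T) := by
        rw [hS', Finset.insert_sdiff_of_notMem _ (fun h9 => hpS (hT h9))]
      rw [e1, Finset.prod_insert (fun h9 => hpS (Finset.mem_sdiff.1 h9).1)]
      obtain ⟨x, hx⟩ := hX T hT
      have hW : ∀ q ∈ S \ T, isN a q := fun q hq => hS q (Finset.mem_sdiff.1 hq).1
      have hU : ∀ p ∈ T, p.Prime := fun p hp => (hS p (hT hp)).1
      have h5' := L_inertT h T fun q hq => hS q (hT hq)
      have h4' : (S \ T).card + T.card = S.card := Finset.card_sdiff_add_card_eq_card hT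
      rw [hx]
      split_ifs with hf
      · have h6 := V.mul (prod_factor_V hW hU Finset.sdiff_disjoint (hff T hf)) h5'
        rw [h4'] at h6
        obtain ⟨k, hk⟩ := h6
        rcases hcT T with h7 | h7
        · rw [h7]
          refine ⟨k * x, ?_⟩
          rw [pow_add]
          linear_combination (4 * x) * hk
        · rw [h7]
          refine ⟨-(k + 1) * x, ?_⟩
          rw [pow_add]
          linear_combination (-4 * x) * hk
      · obtain ⟨q0, hq0, hq3⟩ := hnf T hT hf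
        obtain ⟨l, hl⟩ := prod_factor_dvd hW hU Finset.sdiff_disjoint hq0 hq3
        obtain ⟨k, hk⟩ := h5'
        rw [hl, hk, ← h4']
        exact ⟨(∏ q ∈ T, c q) * x * l * (2 * k + 1), by ring⟩
    have t2 : ∀ T ∈ S.powerset.erase S, (2 : ℤ) ^ (S.card + 3) ∣
        (∏ q ∈ insert p T, c q) * SS t (∏ q ∈ insert p T, q) (∏ q ∈ S', q) - E T := by
      intro T hT
      rw [Finset.mem_erase, Finset.mem_powerset] at hT
      have hpT : p ∉ T := fun h9 => hpS (hT.2 h9)
      rw [SST_sub h (Finset.insert_subset_insert p hT.2) hSp, hE]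
      have e1 : S' \ insert p T = S \ T := by
        rw [hS']
        ext q
        simp only [Finset.mem_sdiff, Finset.mem_insert, not_or]
        constructor
        · rintro ⟨h6 | h6, h7, h8⟩
          · exact absurd h6 h7
          · exact ⟨h6, h8⟩
        · rintro ⟨h6, h7⟩
          exact ⟨Or.inr h6, fun h8 => hpS (h8 ▸ h6), h7⟩
      rw [e1]
      obtain ⟨x, hx⟩ := hX T hT.2
      have hW : ∀ q ∈ S \ T, isN a q := fun q hq => hS q (Finset.mem_sdiff.1 hq).1
      have hU : ∀ l ∈ insert p T, l.Prime := by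
        intro l hl
        rcases Finset.mem_insert.1 hl with rfl | hl
        · exact hp
        · exact (hS l (hT.2 hl)).1
      have hd : Disjoint (S \ T) (insert p T) := by
        rw [Finset.disjoint_left]
        intro q hq hq'
        rw [Finset.mem_sdiff] at hq
        rcases Finset.mem_insert.1 hq' with h8 | h8
        · exact hpS (h8 ▸ hq.1)
        · exact hq.2 h8
      have h7 := ih T (Finset.ssubset_iff_subset_ne.2 ⟨hT.2, hT.1⟩) (fun q hq => hS q (hT.2 hq)) hpT
      rw [← Finset.prod_insert (f := fun q => q) hpT] at h7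
      obtain ⟨l, hl⟩ := h7
      rw [hx] at hl ⊢
      have h8 : (2 : ℤ) ^ (S \ T).card * 2 ^ T.card = 2 ^ S.card := by
        rw [← pow_add, Finset.card_sdiff_add_card_eq_card hT.2]
      have h9 : SS t (∏ q ∈ insert p T, q) (∏ q ∈ insert p T, q)
          = 2 ^ T.card * (4 * x + 8 * l) := by
        rw [pow_add] at hl
        linear_combination hl
      rw [h9]
      split_ifs with hf
      · obtain ⟨k, hk⟩ := prod_factor_V hW hU hd (hff T hf)
        rw [hk]
        rcases hcT (insert p T) with h10 | h10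
        · rw [h10]
          refine ⟨k * x + 2 * k * l + l, ?_⟩
          rw [pow_add, ← h8]
          ring
        · rw [h10]
          refine ⟨-(k + 1) * x - 2 * k * l - l, ?_⟩
          rw [pow_add, ← h8]
          ring
      · obtain ⟨q0, hq0, hq3⟩ := hnf T hT.2 hf
        obtain ⟨k, hk⟩ := prod_factor_dvd hW hU hd hq0 hq3
        rw [hk]
        refine ⟨(∏ q ∈ insert p T, c q) * k * (x + 2 * l), ?_⟩
        have e4 : (2 : ℤ) ^ (S.card + 3) = 8 * (2 ^ (S \ T).card * 2 ^ T.card) := by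
          rw [h8, pow_add]; ring
        rw [e4, pow_succ]
        ring
    have s1 := Finset.dvd_sum t1
    have s2 := Finset.dvd_sum t2
    rw [Finset.sum_sub_distrib] at s1 s2
    have s3 : (2 : ℤ) ^ (S.card + 3) ∣ 2 * ∑ T ∈ S.powerset.erase S, E T := by
      rw [Finset.mul_sum]
      refine Finset.dvd_sum fun T hT => ?_
      rw [Finset.mem_erase, Finset.mem_powerset] at hT
      obtain ⟨x, hx⟩ := hX T hT.2
      rw [hE, hx]
      split_ifs
      · exact ⟨x, by rw [pow_add]; ring⟩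
      · simp
    rw [← Finset.add_sum_erase S.powerset (fun T => (∏ q ∈ insert p T, c q) *
      SS t (∏ q ∈ insert p T, q) (∏ q ∈ S', q)) (Finset.mem_powerset_self S)] at h5
    rw [← Finset.add_sum_erase S.powerset E (Finset.mem_powerset_self S)] at s1
    have hES : E S = 2 ^ S.card * (a p - 2 * jacobiSym p (∏ q ∈ S, q)) := by
      rw [hE, if_pos (show fullT S S from fun q hq _ => hq)]
    rw [hES] at s1
    obtain ⟨x, hx⟩ := hX S (Finset.Subset.refl _)
    obtain ⟨u1, hu1⟩ := s1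
    obtain ⟨u2, hu2⟩ := s2
    obtain ⟨u3, hu3⟩ := s3
    have e2 : SS t (p * ∏ q ∈ S, q) (p * ∏ q ∈ S, q)
      = SS t (∏ q ∈ insert p S, q) (∏ q ∈ S', q) := by
      rw [hS', Finset.prod_insert hpS]
    rw [e2]
    rw [hx] at hu1 ⊢
    rcases hcT (insert p S) with h10 | h10
    · rw [h10] at h5
      refine ⟨m - u1 - u2 - u3 - x, ?_⟩
      have e3 : (2 : ℤ) ^ (S.card + 3) = 8 * 2 ^ S.card := by rw [pow_add]; ring
      linear_combination h5 - hu1 - hu2 - hu3 + x * e3
    · rw [h10] at h5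
      refine ⟨-m + u1 + u2 + u3, ?_⟩
      linear_combination -h5 + hu1 + hu2 + hu3

theorem LT_ne_zero {t : ℚ → ℤ} {a : ℕ → ℤ} (h : SymbT t a) {p : ℕ} (hp : p.Prime)
    (hp8 : p % 8 = 1) (hp14 : jacobiSym (-14) p = 1) (h2 : (4 : ℤ) ∣ a p - 2) {S : Finset ℕ}
    (hS : ∀ q ∈ S, isN a q) (hpS : p ∉ S)
    (hN : ¬ (8 : ℤ) ∣ a p - 2 * jacobiSym p (∏ q ∈ S, q)) :
    SS t (p * ∏ q ∈ S, q) (p * ∏ q ∈ S, q) ≠ 0 := by
  intro h0
  have h1 := sum_splitT h p hp hp8 hp14 h2 S hS hpS
  rw [h0, zero_sub, dvd_neg, pow_add] at h1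
  exact hN (by
    have := Int.dvd_of_mul_dvd_mul_left (by positivity) h1
    simpa using this)

end Pool.Agent.Y687
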