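import Pool.Agent.Y687.Aq
import Pool.Agent.Y687.K4.OneT

/-!
Type facts for the inert primes of any class modulo `4`, and the twist by an integer of any sign.
-/

set_option autoImplicit false
set_option linter.style.haveILetI false

open Finset

namespace Pool.Agent.Y687

open Pool.Agent.W97.MT (ap E14 affCount)

/-- primes inert in `ℚ(√2)` and in `ℚ(√-7)` -/
def InertT (q : ℕ) : Prop :=
  q.Prime ∧ (q % 8 = 3 ∨ q % 8 = 5) ∧ (q % 7 = 3 ∨ q % 7 = 5 ∨ q % 7 = 6)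

/-- quadratic reciprocity for discriminants `≡ 1 mod 4` -/
theorem jacD {D : ℤ} (hD : D % 4 = 1) {p : ℕ} (hp : p % 2 = 1) :
    jacobiSym D p = jacobiSym p D.natAbs := by
  have hodd : Odd p := Nat.odd_iff.2 hp
  rcases Int.natAbs_eq D with h | h
  · have h4 : D.natAbs % 4 = 1 := by omega
    conv_lhs => rw [h]
    rw [jacobiSym.quadratic_reciprocity_one_mod_four h4 hodd]
  · have h4 : D.natAbs % 4 = 3 := by omega
    conv_lhs => rw [h]
    rw [← neg_one_mul, jacobiSym.mul_left, jacobiSym.at_neg_one hodd]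
    rcases (by omega : p % 4 = 1 ∨ p % 4 = 3) with h5 | h5
    · rw [ZMod.χ₄_nat_one_mod_four h5, one_mul]
      have h6 := jacobiSym.quadratic_reciprocity_one_mod_four h5 (b := D.natAbs)
        (Nat.odd_iff.2 (by omega))
      exact h6.symm
    · rw [ZMod.χ₄_nat_three_mod_four h5, jacobiSym.quadratic_reciprocity_three_mod_four h4 h5]
      ring

theorem jac_q7 : ∀ r : ℕ, r < 7 → ((r = 1 ∨ r = 2 ∨ r = 4) → jacobiSym ((r : ℕ) : ℤ) 7 = 1) ∧
    ((r = 3 ∨ r = 5 ∨ r = 6) → jacobiSym ((r : ℕ) : ℤ) 7 = -1) := by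
  intro r hr
  interval_cases r <;> norm_num

/-- the symbol of `-7` -/
theorem jac_neg7 {q : ℕ} (hq : q % 2 = 1) :
    ((q % 7 = 1 ∨ q % 7 = 2 ∨ q % 7 = 4) → jacobiSym (-7) q = 1) ∧
      ((q % 7 = 3 ∨ q % 7 = 5 ∨ q % 7 = 6) → jacobiSym (-7) q = -1) := by
  have h1 : jacobiSym (-7) q = jacobiSym ((q % 7 : ℕ) : ℤ) 7 := by
    rw [jacD (by norm_num) hq]
    show jacobiSym (q : ℤ) 7 = _
    rw [jacobiSym.mod_left]
    push_cast
    rfl
  rw [h1]
  exact jac_q7 (q % 7) (Nat.mod_lt _ (by norm_num))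

theorem sq_of_jac {q : ℕ} [Fact q.Prime] {x : ℤ} (h : jacobiSym x q = 1) :
    IsSquare (x : ZMod q) := by
  rw [← jacobiSym.legendreSym.to_jacobiSym] at h
  have hx : (x : ZMod q) ≠ 0 := by
    intro h0
    rw [(legendreSym.eq_zero_iff q x).2 h0] at h
    norm_num at h
  exact (legendreSym.eq_one_iff q hx).1 h

theorem nsq_of_jac {q : ℕ} [Fact q.Prime] {x : ℤ} (h : jacobiSym x q = -1) :
    ¬ IsSquare (x : ZMod q) := by
  rw [← jacobiSym.legendreSym.to_jacobiSym] at h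
  exact (legendreSym.eq_neg_one_iff q).1 h

theorem InertT.nsq7 {q : ℕ} (h : InertT q) : ¬ IsSquare (-7 : ZMod q) := by
  obtain ⟨hq, h8, h7⟩ := h
  haveI : Fact q.Prime := ⟨hq⟩
  have h1 := nsq_of_jac ((jac_neg7 (q := q) (by omega)).2 h7)
  push_cast at h1
  exact h1

theorem InertT.nsq2 {q : ℕ} (h : InertT q) : ¬ IsSquare (2 : ZMod q) := by
  obtain ⟨hq, h8, h7⟩ := h
  haveI : Fact q.Prime := ⟨hq⟩
  rw [ZMod.exists_sq_eq_two_iff (by omega)]
  omega

theorem InertT.facts {q : ℕ} (h : InertT q) : isN (fun q => ap E14 q) q := by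
  have hn7 := h.nsq7
  have hn2 := h.nsq2
  obtain ⟨hq, h8, h7⟩ := h
  haveI : Fact q.Prime := ⟨hq⟩
  have n2 := two_ne hq (by omega : q ≠ 2)
  have n7 := seven_ne hq (by omega : q ≠ 7)
  have h14 : jacobiSym (-14) q = 1 := by
    have e1 : jacobiSym (-14) q = jacobiSym 2 q * jacobiSym (-7) q := by
      rw [← jacobiSym.mul_left]; norm_num
    have e2 : jacobiSym 2 q = -1 := by
      rw [← jacobiSym.legendreSym.to_jacobiSym, legendreSym.eq_neg_one_iff]
      push_cast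
      exact hn2
    rw [e1, e2, (jac_neg7 (q := q) (by omega)).2 h7]
    norm_num
  by_cases q3 : q = 3
  · subst q3
    refine ⟨hq, h14, Or.inr ⟨by norm_num, ?_⟩⟩
    show (4 : ℤ) ∣ ap E14 3 - 2
    rw [ap3]; norm_num
  refine ⟨hq, h14, ?_⟩
  have h1 := cnt_E14 q hq (by omega) q3
  have h2 := cnt_model 1 q q3
  have h3 : cnt (5805 * 1 ^ 2) (-285714 * 1 ^ 3) q = cnt 5805 (-285714) q := by norm_num
  rw [h3] at h2
  have h5 := count_II (F := ZMod q) n2 (a := 13 * ((1 : ℤ) : ZMod q)) (b := 128 * ((1 : ℤ) : ZMod q) ^ 2)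
    ?_ ?_
  · rw [← h2] at h5
    show (q % 4 = 1 ∧ (4 : ℤ) ∣ ap E14 q) ∨ (q % 4 = 3 ∧ (4 : ℤ) ∣ ap E14 q - 2)
    rw [← h1]
    omega
  · rintro ⟨r, hr⟩
    apply hn2
    have n8 : (8 : ZMod q) ≠ 0 := by
      rw [show (8 : ZMod q) = 2 ^ 3 by norm_num]; exact pow_ne_zero _ n2
    refine ⟨r / 8, ?_⟩
    rw [div_mul_div_comm, ← hr, eq_div_iff (mul_ne_zero n8 n8)]
    push_cast
    ring
  · rintro ⟨r, hr⟩
    apply hn7
    refine ⟨r / 7, ?_⟩
    rw [div_mul_div_comm, ← hr, eq_div_iff (mul_ne_zero n7 n7)]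
    push_cast
    ring

/-- the number of points of a twist by a discriminant of any sign -/
theorem cnt_twistD (A B : ℤ) {D : ℤ} (hD : D % 4 = 1) (p : ℕ) [Fact p.Prime] (hp : p ≠ 2)
    (hpD : ¬ p ∣ D.natAbs) :
    (p : ℤ) - cnt (A * D ^ 2) (B * D ^ 3) p = jacobiSym p D.natAbs * ((p : ℤ) - cnt A B p) := by
  have hpp : p.Prime := Fact.out
  have hM0 : (D : ZMod p) ≠ 0 := by
    intro h
    rw [ZMod.intCast_zmod_eq_zero_iff_dvd] at h
    exact hpD (Int.natCast_dvd.1 h)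
  rw [cnt_eq _ _ p hp, cnt_eq _ _ p hp]
  have h5 : quadraticChar (ZMod p) (D : ZMod p) = jacobiSym p D.natAbs := by
    have h6 : quadraticChar (ZMod p) (D : ZMod p) = legendreSym p D := rfl
    rw [h6, jacobiSym.legendreSym.to_jacobiSym]
    exact jacD hD (Nat.odd_iff.1 (hpp.odd_of_ne_two hp))
  rw [← h5, mul_neg, Finset.mul_sum]
  congr 1
  symm
  refine Fintype.sum_equiv (Equiv.mulLeft₀ (D : ZMod p) hM0) _ _ fun x => ?_
  have h4 : quadraticChar (ZMod p) (D : ZMod p) = quadraticChar (ZMod p) ((D : ZMod p) ^ 3) := by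
    rw [pow_succ, map_mul, quadraticChar_sq_one' hM0, one_mul]
  rw [h4, ← map_mul, Equiv.mulLeft₀_apply]
  congr 1
  push_cast
  ring

theorem Split.jac14 {p : ℕ} (hp : p.Prime) (h8 : p % 8 = 1)
    (h7 : p % 7 = 1 ∨ p % 7 = 2 ∨ p % 7 = 4) : jacobiSym (-14) p = 1 := by
  have h1 := (SS_facts p hp h8 h7).1
  have h2 := jac_neg (p := p) (by omega) 14
  rw [← h1, ← h2]

/-- consequences of the hypothesis on the number of points modulo 8 -/
theorem hyp_factsD (p : ℕ) (hp : p.Prime) (h8 : p % 8 = 1) (h7 : p % 7 = 1 ∨ p % 7 = 2 ∨ p % 7 = 4)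
    (m : ℤ) (hm4 : m % 4 = 1) (hpm : ¬ p ∣ m.natAbs)
    (hN : ¬ 8 ∣ cnt (5805 * m ^ 2) (-285714 * m ^ 3) p + 1) :
    (¬ (8 : ℤ) ∣ ap E14 p - 2 * jacobiSym p m.natAbs) ∧
      ∀ x : ZMod p, x ^ 2 + 13 * (m : ZMod p) * x + 128 * (m : ZMod p) ^ 2 = 0 → ¬ IsSquare x := by
  haveI : Fact p.Prime := ⟨hp⟩
  have h4 : p % 4 = 1 := by omega
  have q7 : p ≠ 7 := by omega
  have q3 : p ≠ 3 := by rintro rfl; omega
  have n2 := two_ne hp (by omega : p ≠ 2)
  have n7 := seven_ne hp q7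
  have nm : (m : ZMod p) ≠ 0 := by
    intro h
    rw [ZMod.intCast_zmod_eq_zero_iff_dvd] at h
    exact hpm (Int.natCast_dvd.1 h)
  constructor
  · obtain ⟨-, k, hk⟩ := SS_facts p hp h8 h7
    have h1 := cnt_twistD 5805 (-285714) hm4 p (by omega) hpm
    rw [cnt_E14 p hp (by omega) q3] at h1
    have hj : jacobiSym p m.natAbs = 1 ∨ jacobiSym p m.natAbs = -1 := by
      refine jacobiSym.eq_one_or_neg_one ?_
      rw [Int.gcd_natCast_natCast]
      exact (Nat.Prime.coprime_iff_not_dvd hp).2 hpm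
    intro h
    apply hN
    rcases hj with hj | hj
    · rw [hj] at h h1
      zify
      omega
    · rw [hj] at h h1
      zify
      omega
  · rintro x hx ⟨α, hα⟩
    obtain ⟨s, hs⟩ := (sq_two p h4).2 h8
    obtain ⟨i, hi⟩ := (ZMod.exists_sq_eq_neg_one_iff (p := p)).2 (by omega)
    have hx0 : x ≠ 0 := by
      rintro rfl
      have : (128 : ZMod p) * (m : ZMod p) ^ 2 = 0 := by linear_combination hx
      rcases mul_eq_zero.1 this with h | h
      · rw [show (128 : ZMod p) = 2 ^ 7 by norm_num] at h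
        exact pow_ne_zero _ n2 h
      · exact pow_ne_zero _ nm h
    have hα0 : α ≠ 0 := by
      rintro rfl
      apply hx0
      rw [hα]; ring
    have hs0 : s ≠ 0 := by
      rintro rfl
      apply n2
      rw [hs]; ring
    set β : ZMod p := 8 * (m : ZMod p) * s / α with hβ
    have n8 : (8 : ZMod p) ≠ 0 := by
      rw [show (8 : ZMod p) = 2 ^ 3 by norm_num]; exact pow_ne_zero _ n2
    have hβ0 : β ≠ 0 := div_ne_zero (mul_ne_zero (mul_ne_zero n8 nm) hs0) hα0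
    have hab : α ^ 2 * β ^ 2 = 128 * (m : ZMod p) ^ 2 := by
      rw [hβ, div_pow, mul_div_assoc', mul_div_cancel_left₀ _ (pow_ne_zero 2 hα0)]
      linear_combination (-64 * (m : ZMod p) ^ 2) * hs
    have hsum : -(α ^ 2 + β ^ 2) = 13 * (m : ZMod p) := by
      have h1 : α ^ 2 * (-(α ^ 2 + β ^ 2)) = α ^ 2 * (13 * (m : ZMod p)) := by
        have h2 : x = α ^ 2 := by rw [hα]; ring
        rw [h2] at hx
        linear_combination -hx - hab
      exact mul_left_cancel₀ (pow_ne_zero 2 hα0) h1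
    have hne : α ^ 2 ≠ β ^ 2 := by
      intro h
      have h1 : (343 : ZMod p) * (m : ZMod p) ^ 2 = 0 := by
        have e1 : (α ^ 2 - β ^ 2) ^ 2 = -343 * (m : ZMod p) ^ 2 := by
          linear_combination (-(α ^ 2 + β ^ 2) + 13 * (m : ZMod p)) * hsum - 4 * hab
        rw [h, sub_self] at e1
        linear_combination e1
      rcases mul_eq_zero.1 h1 with h2 | h2
      · rw [show (343 : ZMod p) = 7 ^ 3 by norm_num] at h2
        exact pow_ne_zero _ n7 h2
      · exact pow_ne_zero _ nm h2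
    have h9 := eight_dvd n2 (i := i) (by rw [hi]; ring) hα0 hβ0 hne
    rw [hab, hsum] at h9
    apply hN
    rw [cnt_model m p q3]
    exact h9

end Pool.Agent.Y687
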